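import Pool.Agent.Q313.CJ.Img

/-! Asymptotics. -/

open Finset Module Filter
open scoped Topology

namespace Pool.Agent.Q313.CJ

set_option linter.unusedSectionVars false

/-- the entropy function in bits -/
noncomputable def HH (x : ℝ) : ℝ := Real.binEntropy x / Real.log 2

lemma two_rpow (x : ℝ) : (2 : ℝ) ^ x = Real.exp (x * Real.log 2) := by
  rw [Real.rpow_def_of_pos two_pos, mul_comm]

lemma vol_le {x : ℝ} (hx0 : 0 < x) (hx1 : x < 1 / 2) {n d : ℕ} (hd : (d : ℝ) ≤ x * n) :
    (1 + x / (1 - x)) ^ n / (x / (1 - x)) ^ d ≤ (2 : ℝ) ^ (HH x * n) := by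
  have h1x : 0 < 1 - x := by linarith
  set ρ := x / (1 - x) with hρ
  have hρ0 : 0 < ρ := by positivity
  have hρ1 : ρ < 1 := by rw [hρ, div_lt_one h1x]; linarith
  have hlog2 : 0 < Real.log 2 := Real.log_pos (by norm_num)
  have hlogρ : Real.log ρ < 0 := Real.log_neg hρ0 hρ1
  have e1 : 1 + ρ = 1 / (1 - x) := by rw [hρ]; field_simp; ring
  have h1ρ : 0 < 1 + ρ := by linarith
  have h2 : (1 + ρ) ^ n / ρ ^ d = Real.exp (n * Real.log (1 + ρ) - d * Real.log ρ) := by
    rw [Real.exp_sub, mul_comm, ← Real.rpow_def_of_pos h1ρ, mul_comm (d : ℝ),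
      ← Real.rpow_def_of_pos hρ0, Real.rpow_natCast, Real.rpow_natCast]
  rw [h2, two_rpow]
  apply Real.exp_le_exp.2
  have h3 : HH x * n * Real.log 2 = n * Real.binEntropy x := by
    unfold HH
    field_simp
  rw [h3]
  have h4 : Real.log (1 + ρ) = - Real.log (1 - x) := by
    rw [e1, one_div, Real.log_inv]
  have h5 : Real.log ρ = Real.log x - Real.log (1 - x) := by
    rw [hρ, Real.log_div hx0.ne' h1x.ne']
  have h6 : Real.binEntropy x = - Real.log (1 - x) - x * Real.log ρ := by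
    unfold Real.binEntropy
    rw [Real.log_inv, Real.log_inv, h5]
    ring
  rw [h6, h4]
  nlinarith

lemma HH_pos {x : ℝ} (hx0 : 0 < x) (hx1 : x < 1 / 2) : 0 < HH x :=
  div_pos (Real.binEntropy_pos hx0 (by linarith)) (Real.log_pos (by norm_num))

lemma HH_lt_one {x : ℝ} (hx1 : x < 1 / 2) : HH x < 1 := by
  unfold HH
  rw [div_lt_one (Real.log_pos (by norm_num))]
  apply Real.binEntropy_lt_log_two.2
  intro h
  rw [h] at hx1
  norm_num at hx1

lemma exists_theta {κ : ℝ} (hκ : 0 < κ) : ∃ θ : ℝ, 0 < θ ∧ θ < 1 / 4 ∧ HH θ < κ := by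
  have hcont : Tendsto HH (𝓝[>] 0) (𝓝 (HH 0)) := by
    apply Tendsto.mono_left _ nhdsWithin_le_nhds
    unfold HH
    exact (Real.binEntropy_continuous.div_const _).tendsto 0
  have h0 : HH 0 = 0 := by simp [HH]
  rw [h0] at hcont
  have h1 := hcont.eventually (gt_mem_nhds hκ)
  have h2 : ∀ᶠ θ in 𝓝[>] (0 : ℝ), θ ∈ Set.Ioo (0 : ℝ) (1 / 4) := Ioo_mem_nhdsGT (by norm_num)
  obtain ⟨θ, hθ, hθ2⟩ := (h1.and h2).exists
  exact ⟨θ, hθ2.1, hθ2.2, hθ⟩

lemma ev_pow {a : ℝ} (ha : 0 < a) (C : ℝ) : ∀ᶠ n : ℕ in atTop, C ≤ (2 : ℝ) ^ (a * n) := by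
  have h1 : Tendsto (fun n : ℕ => a * (n : ℝ) * Real.log 2) atTop atTop := by
    apply Tendsto.atTop_mul_const (Real.log_pos (by norm_num))
    exact Tendsto.const_mul_atTop ha tendsto_natCast_atTop_atTop
  have h2 : Tendsto (fun n : ℕ => (2 : ℝ) ^ (a * n)) atTop atTop := by
    have : (fun n : ℕ => (2 : ℝ) ^ (a * n)) = fun n : ℕ => Real.exp (a * n * Real.log 2) :=
      funext fun n => two_rpow _
    rw [this]
    exact Real.tendsto_exp_atTop.comp h1
  exact h2.eventually_ge_atTop C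

lemma extreme_card_le {n t : ℕ} (ht : 1 ≤ t) :
    (extreme n t).card ≤ 2 * (ball n (t - 1)).card := by
  classical
  have h1 : extreme n t ⊆ ball n (t - 1) ∪ (ball n (t - 1)).image (fun u => u + 1) := by
    intro u hu
    rw [extreme, Finset.mem_filter] at hu
    rw [Finset.mem_union]
    rcases hu.2 with h | h
    · left
      rw [ball, Finset.mem_filter]
      exact ⟨Finset.mem_univ _, by omega⟩
    · right
      rw [Finset.mem_image]
      refine ⟨u + 1, ?_, ?_⟩
      · rw [ball, Finset.mem_filter]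
        refine ⟨Finset.mem_univ _, ?_⟩
        have h2 : hammingNorm (u + 1) + hammingNorm u = n := by
          have h3 := Finset.card_filter_add_card_filter_not (s := (univ : Finset (Fin n)))
            (fun k => u k ≠ 0)
          rw [Finset.card_univ, Fintype.card_fin] at h3
          have h4 : hammingNorm (u + 1) = (univ.filter (fun k => ¬ u k ≠ 0)).card := by
            unfold hammingNorm
            congr 1
            ext k
            rw [Finset.mem_filter, Finset.mem_filter]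
            simp only [Finset.mem_univ, true_and, Pi.add_apply, Pi.one_apply]
            have key : ∀ a : ZMod 2, a + 1 ≠ 0 ↔ ¬ a ≠ 0 := by decide
            exact key (u k)
          have h5 : hammingNorm u = (univ.filter (fun k => u k ≠ 0)).card := rfl
          omega
        omega
      · funext k
        simp only [Pi.add_apply, Pi.one_apply]
        generalize u k = a
        revert a
        decide
  refine (Finset.card_le_card h1).trans ((Finset.card_union_le _ _).trans ?_)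
  have := Finset.card_image_le (s := ball n (t - 1)) (f := fun u => u + 1)
  omega

/-- **The pseudo-codes.** -/
theorem main {δ : ℝ} (h0 : 0 < δ) (h1 : δ < 1 / 2) :
    ∃ c : ℝ, 0 < c ∧ ∀ l : ℕ, 1 ≤ l → ∀ᶠ n : ℕ in atTop,
      ∃ a : (Fin l → Fin n → ZMod 2) → ℝ, a 0 = 1 ∧ (∀ x, 0 ≤ a x) ∧
        (∀ x, ∀ e : Fin l → ZMod 2, comb e x ≠ 0 → hammingNorm (comb e x) < ⌈δ * n⌉₊ →
          a x = 0) ∧
        (∀ y, 0 ≤ ∑ x, chi2 y x * a x) ∧
        (2 : ℝ) ^ (((1 - HH δ) * l + c) * n) ≤ ∑ x, a x := by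
  classical
  have h1δ : 0 < 1 - δ := by linarith
  set r := δ / (1 - δ) with hr
  have hr0 : 0 < r := by positivity
  have hr1 : r < 1 := by rw [hr, div_lt_one h1δ]; linarith
  have hH0 := HH_pos h0 h1
  have hH1 := HH_lt_one h1
  set H := HH δ with hH
  set κ := (1 - H) / 2 with hκ
  have hκ0 : 0 < κ := by rw [hκ]; linarith
  obtain ⟨θ, hθ0, hθ4, hθ⟩ := exists_theta (half_pos hκ0)
  set σ := (1 + r ^ 2) / (1 + r) ^ 2 with hσ
  have hσ0 : 0 < σ := by positivity
  have hσ1 : σ < 1 := by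
    rw [hσ, div_lt_one (by positivity)]
    nlinarith
  have hlog2 : 0 < Real.log 2 := Real.log_pos (by norm_num)
  set τ := θ * (- Real.log σ / Real.log 2) with hτ
  have hτ0 : 0 < τ := by
    rw [hτ]
    have : Real.log σ < 0 := Real.log_neg hσ0 hσ1
    have h2 : 0 < - Real.log σ := by linarith
    positivity
  set c1 := min (min κ τ) H with hc1
  have hc10 : 0 < c1 := lt_min (lt_min hκ0 hτ0) hH0
  have hc1κ : c1 ≤ κ := (min_le_left _ _).trans (min_le_left _ _)
  have hc1τ : c1 ≤ τ := (min_le_left _ _).trans (min_le_right _ _)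
  have hc1H : c1 ≤ H := min_le_right _ _
  refine ⟨c1 / 2, by linarith, fun l hl => ?_⟩
  have hcnt := one_le_cnt l
  filter_upwards [ev_pow (half_pos hκ0) 16, ev_pow hκ0 4, ev_pow hκ0 (2 * cnt l),
    ev_pow (half_pos hc10) (56 * cnt l * (2 * cnt l) ^ (l - 1)), eventually_ge_atTop 4] with
    n hn1 hn2 hn3 hn4 hn5
  have hn0 : (0 : ℝ) < n := by
    have : 0 < n := by omega
    exact_mod_cast this
  have hn4' : (4 : ℝ) ≤ n := by exact_mod_cast hn5
  set f := ⌊κ * n⌋₊ with hf
  have hfle : (f : ℝ) ≤ κ * n := Nat.floor_le (by positivity)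
  have hfge : κ * n - 1 < f := by
    have := Nat.lt_floor_add_one (κ * n)
    rw [← hf] at this
    linarith
  have hκ1 : κ < 1 := by rw [hκ]; linarith
  have hfn : f < n := by
    have : (f : ℝ) < n := by nlinarith
    exact_mod_cast this
  set m := n - f with hm
  have hm1 : 1 ≤ m := by omega
  have hmR : (m : ℝ) = n - f := by
    rw [hm, Nat.cast_sub hfn.le]
  set t := ⌈θ * n⌉₊ with ht
  have ht1 : 1 ≤ t := by
    have : 0 < t := Nat.ceil_pos.2 (by positivity)
    omega
  have htge : θ * n ≤ t := Nat.le_ceil _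
  have htlt : (t : ℝ) < θ * n + 1 := Nat.ceil_lt_add_one (by positivity)
  set d := ⌈δ * n⌉₊ - 1 with hd
  have hδn : 0 < ⌈δ * n⌉₊ := Nat.ceil_pos.2 (by positivity)
  have hdlt : (d : ℝ) ≤ δ * n := by
    have h2 : (⌈δ * n⌉₊ : ℝ) < δ * n + 1 := Nat.ceil_lt_add_one (by positivity)
    have h3 : (⌈δ * n⌉₊ : ℝ) = d + 1 := by
      have : ⌈δ * n⌉₊ = d + 1 := by omega
      rw [this]
      push_cast
      ring
    linarith
  -- volumes
  have hV : ((ball n d).card : ℝ) ≤ (2 : ℝ) ^ (H * n) :=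
    (ball_card_le d hr0 hr1.le).trans (vol_le h0 h1 hdlt)
  have hVt : ((ball n (t - 1)).card : ℝ) ≤ (2 : ℝ) ^ (HH θ * n) := by
    have h1θ : 0 < 1 - θ := by linarith
    refine (ball_card_le (t - 1) (r := θ / (1 - θ)) (by positivity)
      (by rw [div_le_one h1θ]; linarith)).trans (vol_le hθ0 (by linarith) ?_)
    have : ((t - 1 : ℕ) : ℝ) = t - 1 := by
      rw [Nat.cast_sub ht1]
      simp
    rw [this]
    linarith
  set D : ℝ := (2 : ℝ) ^ (H * n) with hDdef
  have hD1 : 1 ≤ D := Real.one_le_rpow (by norm_num) (by positivity)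
  have hD0 : 0 < D := by linarith
  have h2m : (2 : ℝ) ^ ((H + κ) * n) ≤ (2 : ℝ) ^ m := by
    rw [← Real.rpow_natCast]
    apply Real.rpow_le_rpow_of_exponent_le (by norm_num)
    have : H + κ = 1 - κ := by rw [hκ]; ring
    rw [hmR, this]
    linarith
  have hsplit : ∀ a b : ℝ, (2 : ℝ) ^ ((a + b) * n) = (2 : ℝ) ^ (a * n) * (2 : ℝ) ^ (b * n) := by
    intro a b
    rw [← Real.rpow_add two_pos]
    congr 1
    ring
  -- the check matrix
  obtain ⟨c, hcA, hcB, hcC⟩ := exists_mat (n := n) (m := m) (t := t) (d := d) (by omega) hm1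
    (by
      have h2 := extreme_card_le (n := n) ht1
      have h3 : (4 : ℝ) * (2 ^ m * (extreme n t).card) ≤ 2 ^ n := by
        have h4 : ((extreme n t).card : ℝ) ≤ 2 * (2 : ℝ) ^ (HH θ * n) := by
          have : ((extreme n t).card : ℝ) ≤ 2 * ((ball n (t - 1)).card : ℝ) := by
            exact_mod_cast h2
          linarith
        have h5 : (2 : ℝ) ^ (HH θ * n) ≤ (2 : ℝ) ^ (κ / 2 * n) :=
          Real.rpow_le_rpow_of_exponent_le (by norm_num)
            (mul_le_mul_of_nonneg_right hθ.le hn0.le)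
        have h6 : (2 : ℝ) ^ n = 2 ^ m * 2 ^ f := by
          rw [← pow_add]
          congr 1
          omega
        have h7 : (2 : ℝ) ^ (κ * n) ≤ 2 * 2 ^ f := by
          have : (2 : ℝ) * 2 ^ f = 2 ^ ((f : ℝ) + 1) := by
            rw [Real.rpow_add two_pos, Real.rpow_natCast, Real.rpow_one]
            ring
          rw [this]
          apply Real.rpow_le_rpow_of_exponent_le (by norm_num)
          linarith
        have h8 : (2 : ℝ) ^ (κ * n) = (2 : ℝ) ^ (κ / 2 * n) * (2 : ℝ) ^ (κ / 2 * n) := by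
          rw [← hsplit]
          congr 1
          ring
        have h9 : 0 < (2 : ℝ) ^ (κ / 2 * n) := by positivity
        have h10 : 8 * (2 : ℝ) ^ (κ / 2 * n) ≤ 2 ^ f := by nlinarith
        rw [h6]
        have h11 : (0 : ℝ) < 2 ^ m := by positivity
        nlinarith
      exact_mod_cast h3)
    (by
      have h3 : (4 : ℝ) * (ball n d).card ≤ 2 ^ m := by
        refine le_trans ?_ h2m
        rw [hsplit]
        nlinarith
      exact_mod_cast h3)
  -- the parameters
  have hD2 : D ^ 2 / 2 ^ m ≤ (2 : ℝ) ^ ((H - c1) * n) := by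
    rw [div_le_iff₀ (by positivity)]
    have h2 : D ^ 2 = (2 : ℝ) ^ ((H - κ) * n) * (2 : ℝ) ^ ((H + κ) * n) := by
      rw [← hsplit, sq, hDdef, ← hsplit]
      congr 1
      ring
    rw [h2]
    apply mul_le_mul _ h2m (by positivity) (by positivity)
    apply Real.rpow_le_rpow_of_exponent_le (by norm_num)
    apply mul_le_mul_of_nonneg_right _ hn0.le
    linarith
  have hcoll : (coll d c : ℝ) ≤ 4 * (2 : ℝ) ^ ((H - c1) * n) := by
    have h2 : (coll d c : ℝ) * 2 ^ m ≤ 4 * ((ball n d).card : ℝ) ^ 2 := by exact_mod_cast hcC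
    have h3 : ((ball n d).card : ℝ) ^ 2 ≤ D ^ 2 := pow_le_pow_left₀ (Nat.cast_nonneg _) hV 2
    have h4 : (coll d c : ℝ) ≤ 4 * (D ^ 2 / 2 ^ m) := by
      rw [← mul_div_assoc, le_div_iff₀ (by positivity)]
      linarith
    linarith
  have hKb : (1 + r ^ 2) ^ t * (1 + r) ^ (n - 2 * t) / r ^ d ≤ (2 : ℝ) ^ ((H - c1) * n) := by
    have h2t : 2 * t ≤ n := by
      have : (2 : ℝ) * t ≤ n := by nlinarith
      exact_mod_cast this
    have h2 : (1 + r ^ 2) ^ t * (1 + r) ^ (n - 2 * t) / r ^ d =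
        σ ^ t * ((1 + r) ^ n / r ^ d) := by
      have h3 : (1 + r) ^ n = (1 + r) ^ (n - 2 * t) * ((1 + r) ^ 2) ^ t := by
        rw [← pow_mul, ← pow_add]
        congr 1
        omega
      have hσ' : σ * (1 + r) ^ 2 = 1 + r ^ 2 := by
        rw [hσ]
        exact div_mul_cancel₀ _ (by positivity)
      rw [h3, ← hσ', mul_pow]
      ring
    have h3 : σ ^ t ≤ (2 : ℝ) ^ (-τ * n) := by
      rw [two_rpow, ← Real.rpow_natCast, Real.rpow_def_of_pos hσ0]
      apply Real.exp_le_exp.2
      have h4 : -τ * n * Real.log 2 = Real.log σ * (θ * n) := by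
        rw [hτ]
        field_simp
      rw [h4]
      exact mul_le_mul_of_nonpos_left htge (Real.log_neg hσ0 hσ1).le
    rw [h2]
    calc σ ^ t * ((1 + r) ^ n / r ^ d) ≤ (2 : ℝ) ^ (-τ * n) * (2 : ℝ) ^ (H * n) :=
          mul_le_mul h3 (vol_le h0 h1 hdlt) (by positivity) (by positivity)
      _ = (2 : ℝ) ^ ((-τ + H) * n) := (hsplit _ _).symm
      _ ≤ _ := by
          apply Real.rpow_le_rpow_of_exponent_le (by norm_num)
          apply mul_le_mul_of_nonneg_right _ hn0.le
          linarith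
  have hone : (1 : ℝ) ≤ (2 : ℝ) ^ ((H - c1) * n) := by
    apply Real.one_le_rpow (by norm_num)
    apply mul_nonneg _ hn0.le
    linarith
  set E : ℝ := (2 : ℝ) ^ ((H - c1) * n) with hE
  have hyp := img_hyp (m := m) (t := t) (d := d) c hcA (D := D) (lam := 6 * E) hr0 hr1.le hV hD1
    (by linarith)
  have hyp' : Hyp (img d c) D (7 * E) :=
    ⟨hyp.card, hyp.one, by positivity, fun ψ hψ => (hyp.char ψ hψ).trans (by linarith),
      fun z => (hyp.three z).trans (by
        apply mul_le_mul_of_nonneg_right _ hD0.le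
        linarith)⟩
  have hsub : (Fintype.card (Submodule (ZMod 2) (Fin l → ZMod 2)) : ℝ) ≤ cnt l := by
    have h3 : (1 : ℝ) ≤ Fintype.card (Finset (Fin l → ZMod 2)) := by
      exact_mod_cast Fintype.card_pos
    have h4 := one_le_sub l
    unfold cnt
    nlinarith
  set s : ℝ := 1 / (28 * cnt l * E) with hs
  set p : ℝ := 1 / (2 * cnt l * D) with hp
  have hE0 : 0 < E := by linarith
  have hc0 : 0 < cnt l := by linarith
  have hs0 : 0 < s := by positivity
  have hp0 : 0 < p := by positivity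
  have hG : ((Fintype.card (Fin m → ZMod 2) : ℕ) : ℝ) = 2 ^ m := by simp
  have hp1 : p ≤ 1 := by
    rw [hp, div_le_one (by positivity)]
    nlinarith
  have hs2 : s * (2 * Fintype.card (Submodule (ZMod 2) (Fin l → ZMod 2))) ≤ 1 := by
    rw [hs, one_div, inv_mul_le_iff₀ (by positivity)]
    nlinarith
  have hND : D * (2 * cnt l) ≤ ((Fintype.card (Fin m → ZMod 2) : ℕ) : ℝ) := by
    rw [hG]
    refine le_trans ?_ h2m
    rw [hsplit]
    exact mul_le_mul_of_nonneg_left hn3 hD0.le
  have hpar : Par l ((Fintype.card (Fin m → ZMod 2) : ℕ) : ℝ) D (7 * E) s p := by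
    refine ⟨hs0, hp0, hp1, ?_, ?_, hs2, hND⟩
    · rw [hp]
      apply le_of_eq
      field_simp
    · rw [hs]
      apply le_of_eq
      field_simp
      norm_num
  have h0B : (0 : Fin m → ZMod 2) ∉ img d c := by
    intro h
    rw [img, Finset.mem_image] at h
    obtain ⟨e, he, h2⟩ := h
    rw [Finset.mem_erase] at he
    exact hcB e he.2 he.1 h2
  have hfour := fun ψ : AddChar (Fin l → Fin m → ZMod 2) ℝ =>
    fourier_nonneg (l := l) hyp' h0B hpar ψ
  refine ⟨pulled l d c s p, ?_, ?_, ?_, ?_, ?_⟩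
  · unfold pulled
    have : app c (0 : Fin l → Fin n → ZMod 2) = 0 := by
      funext i
      exact comb_zero_left _
    rw [this]
    exact alpha_zero h0B s p
  · intro x
    exact alpha_nonneg hs0.le hp0.le hp1 hs2 _
  · intro x e he1 he2
    apply alpha_bad (v := e)
    have h2 : comb e (app c x) = comb (comb e x) c := (comb_sum_smul e x c).symm
    rw [h2, img, Finset.mem_image]
    refine ⟨comb e x, ?_, rfl⟩
    rw [Finset.mem_erase]
    refine ⟨he1, ?_⟩
    rw [ball, Finset.mem_filter]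
    exact ⟨Finset.mem_univ _, by omega⟩
  · exact fun y => pulled_fourier c hfour y
  · have h2 := pulled_sum c hfour
    have h3 := alpha_sum (l := l) hl h0B hyp'.card hs0.le hp0.le hp1 hs2 hND
    rw [hG] at h3
    have h4 : (2 : ℝ) ^ (m * l) = ((2 : ℝ) ^ m) ^ l := by rw [pow_mul]
    have h5 : (2 : ℝ) ^ (n * l) * (s * p ^ (l - 1) / 2) ≤ ∑ x, pulled l d c s p x := by
      have h6 : (0 : ℝ) < 2 ^ (m * l) := by positivity
      refine le_of_mul_le_mul_left ?_ h6
      refine le_trans ?_ h2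
      calc (2 : ℝ) ^ (m * l) * (2 ^ (n * l) * (s * p ^ (l - 1) / 2))
          = 2 ^ (n * l) * (s * p ^ (l - 1) * (2 ^ m) ^ l / 2) := by
            rw [h4]
            ring
        _ ≤ _ := mul_le_mul_of_nonneg_left h3 (by positivity)
    refine le_trans ?_ h5
    have h7 : s * p ^ (l - 1) / 2 = 1 / (56 * cnt l * (2 * cnt l) ^ (l - 1) * (E * D ^ (l - 1))) := by
      rw [hs, hp]
      simp only [one_div, inv_pow, mul_pow]
      field_simp
      norm_num
    rw [h7, mul_one_div, le_div_iff₀ (by positivity)]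
    have h8 : D ^ (l - 1) = (2 : ℝ) ^ (H * (l - 1 : ℝ) * n) := by
      rw [hDdef, ← Real.rpow_natCast, ← Real.rpow_mul two_pos.le]
      congr 1
      rw [Nat.cast_sub hl]
      push_cast
      ring
    calc (2 : ℝ) ^ (((1 - H) * l + c1 / 2) * n) *
          (56 * cnt l * (2 * cnt l) ^ (l - 1) * (E * D ^ (l - 1)))
        ≤ (2 : ℝ) ^ (((1 - H) * l + c1 / 2) * n) *
          ((2 : ℝ) ^ (c1 / 2 * n) * (E * D ^ (l - 1))) := by
          apply mul_le_mul_of_nonneg_left _ (by positivity)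
          exact mul_le_mul_of_nonneg_right hn4 (by positivity)
      _ = (2 : ℝ) ^ (n * l) := by
          rw [h8, hE, ← Real.rpow_add two_pos, ← Real.rpow_add two_pos, ← Real.rpow_add two_pos,
            ← Real.rpow_natCast]
          congr 1
          push_cast
          ring

end Pool.Agent.Q313.CJ
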