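import Pool.Agent.Q313.CJ.Full

/-! Characters of `(ZMod 2)^m` and the number of additive triples. -/

open Finset Module

namespace Pool.Agent.Q313.CJ

set_option linter.unusedSectionVars false

/-- the sign `(-1)^a` -/
def sgn (a : ZMod 2) : ℝ := if a = 0 then 1 else -1

lemma sgn_zero : sgn 0 = 1 := by simp [sgn]

lemma sgn_add (a b : ZMod 2) : sgn (a + b) = sgn a * sgn b := by
  have : ∀ a b : ZMod 2, (a = 0 ∧ b = 0) ∨ (a = 0 ∧ b = 1) ∨ (a = 1 ∧ b = 0) ∨ (a = 1 ∧ b = 1) := by
    decide
  have h11 : (1 : ZMod 2) + 1 = 0 := by decide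
  rcases this a b with ⟨rfl, rfl⟩ | ⟨rfl, rfl⟩ | ⟨rfl, rfl⟩ | ⟨rfl, rfl⟩ <;> simp [sgn, h11]

lemma abs_sgn (a : ZMod 2) : |sgn a| = 1 := by
  unfold sgn
  split_ifs <;> simp

variable {m : ℕ}

/-- the character with frequency `y` -/
def chi (y v : Fin m → ZMod 2) : ℝ := sgn (∑ k, y k * v k)

lemma chi_zero_right (y : Fin m → ZMod 2) : chi y 0 = 1 := by simp [chi, sgn]

lemma chi_zero_left (v : Fin m → ZMod 2) : chi 0 v = 1 := by simp [chi, sgn]

lemma chi_add_right (y v w : Fin m → ZMod 2) : chi y (v + w) = chi y v * chi y w := by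
  unfold chi
  rw [← sgn_add]
  congr 1
  rw [← Finset.sum_add_distrib]
  refine Finset.sum_congr rfl fun k _ => ?_
  rw [Pi.add_apply, mul_add]

lemma chi_comm (y v : Fin m → ZMod 2) : chi y v = chi v y := by
  unfold chi
  congr 1
  exact Finset.sum_congr rfl fun k _ => mul_comm _ _

lemma abs_chi (y v : Fin m → ZMod 2) : |chi y v| = 1 := abs_sgn _

/-- `chi y` as a character -/
def chiChar (y : Fin m → ZMod 2) : AddChar (Fin m → ZMod 2) ℝ where
  toFun := chi y
  map_zero_eq_one' := chi_zero_right y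
  map_add_eq_mul' := chi_add_right y

lemma exists_chi (ψ : AddChar (Fin m → ZMod 2) ℝ) : ∃ y, ∀ v, ψ v = chi y v := by
  classical
  have hpm : ∀ i : Fin m, ψ (Pi.single i 1) = 1 ∨ ψ (Pi.single i 1) = -1 := by
    intro i
    have h := psi_sq ψ (Pi.single i 1)
    exact mul_self_eq_one_iff.1 h
  refine ⟨fun i => if ψ (Pi.single i 1) = 1 then 0 else 1, fun v => ?_⟩
  rw [psi_eq_prod]
  unfold chi
  have hs : ∀ s : Finset (Fin m), sgn (∑ k ∈ s, (if ψ (Pi.single k 1) = 1 then (0 : ZMod 2) else 1)
      * v k) = ∏ k ∈ s, sgn ((if ψ (Pi.single k 1) = 1 then (0 : ZMod 2) else 1) * v k) := by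
    intro s
    induction s using Finset.induction_on with
    | empty => simp [sgn]
    | insert a s ha ih => rw [Finset.sum_insert ha, Finset.prod_insert ha, sgn_add, ih]
  rw [hs]
  refine Finset.prod_congr rfl fun k _ => ?_
  rw [coordChar_apply]
  have hv : v k = 0 ∨ v k = 1 := by
    generalize v k = a
    revert a
    decide
  rcases hv with hv | hv
  · rw [hv, Pi.single_zero, AddChar.map_zero_eq_one, mul_zero, sgn_zero]
  · rw [hv, mul_one]
    rcases hpm k with h | h
    · rw [if_pos h, h, sgn_zero]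
    · rw [if_neg (by rw [h]; norm_num), h]
      simp [sgn]

lemma chi_orth (g : Fin m → ZMod 2) :
    ∑ y : Fin m → ZMod 2, chi y g = if g = 0 then (2 : ℝ) ^ m else 0 := by
  classical
  by_cases hg : g = 0
  · rw [if_pos hg, hg]
    simp [chi_zero_right]
  · rw [if_neg hg]
    obtain ⟨k, hk⟩ : ∃ k, g k ≠ 0 := by
      by_contra hcon
      push Not at hcon
      exact hg (funext hcon)
    have hk1 := zmod2 _ hk
    have e : ∑ y : Fin m → ZMod 2, chi y g =
        ∑ y : Fin m → ZMod 2, chi (y + Pi.single k 1) g := by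
      symm
      exact Equiv.sum_comp (Equiv.addRight (Pi.single k 1 : Fin m → ZMod 2)) (fun y => chi y g)
    have e2 : ∀ y, chi (y + Pi.single k 1) g = - chi y g := by
      intro y
      rw [chi_comm, chi_add_right, chi_comm g y]
      have : chi g (Pi.single k 1) = -1 := by
        unfold chi
        rw [Finset.sum_eq_single k]
        · rw [Pi.single_eq_same, hk1]
          simp [sgn]
        · intro j _ hj
          rw [Pi.single_eq_of_ne hj, mul_zero]
        · simp
      rw [this]
      ring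
    rw [Finset.sum_congr rfl fun y _ => e2 y, Finset.sum_neg_distrib] at e
    linarith

/-- the number of additive triples -/
lemma three_le (B : Finset (Fin m → ZMod 2)) {D lam : ℝ} (hD : (B.card : ℝ) ≤ D)
    (hlam0 : 0 ≤ lam) (hlam : ∀ y, y ≠ 0 → |∑ b ∈ B, chi y b| ≤ lam) (z : Fin m → ZMod 2) :
    (((B ×ˢ B).filter (fun p => p.1 + p.2 + z ∈ B)).card : ℝ) ≤ (D ^ 2 / 2 ^ m + lam) * D := by
  classical
  set Bh : (Fin m → ZMod 2) → ℝ := fun y => ∑ b ∈ B, chi y b with hBh
  have hD0 : 0 ≤ D := (Nat.cast_nonneg _).trans hD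
  have hP : (0 : ℝ) < 2 ^ m := by positivity
  -- Parseval
  have hpars : ∑ y, Bh y ^ 2 = 2 ^ m * B.card := by
    have h1 : ∀ y, Bh y ^ 2 = ∑ b ∈ B, ∑ b' ∈ B, chi y (b + b') := by
      intro y
      rw [sq, hBh, Finset.sum_mul_sum]
      exact Finset.sum_congr rfl fun b _ => Finset.sum_congr rfl fun b' _ =>
        (chi_add_right _ _ _).symm
    rw [Finset.sum_congr rfl fun y _ => h1 y, Finset.sum_comm]
    have h2 : ∀ b ∈ B, ∑ y, ∑ b' ∈ B, chi y (b + b') = 2 ^ m := by
      intro b hb
      rw [Finset.sum_comm, Finset.sum_congr rfl fun b' _ => chi_orth (b + b')]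
      rw [Finset.sum_eq_single b]
      · rw [if_pos]
        ext i
        simp only [Pi.add_apply, Pi.zero_apply]
        generalize b i = a
        revert a
        decide
      · intro b' _ hne
        rw [if_neg]
        intro h
        apply hne
        ext i
        have := congrFun h i
        simp only [Pi.add_apply, Pi.zero_apply] at this
        revert this
        generalize b i = a
        generalize b' i = a'
        revert a a'
        decide
      · intro h
        exact absurd hb h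
    rw [Finset.sum_congr rfl h2, Finset.sum_const, nsmul_eq_mul, mul_comm]
  -- the count
  have hcount : (2 : ℝ) ^ m * (((B ×ˢ B).filter (fun p => p.1 + p.2 + z ∈ B)).card : ℝ) =
      ∑ y, chi y z * Bh y ^ 3 := by
    have h1 : ∀ y, chi y z * Bh y ^ 3 =
        ∑ p ∈ B ×ˢ B, ∑ b ∈ B, chi y (p.1 + p.2 + z + b) := by
      intro y
      rw [Finset.sum_product]
      have : Bh y ^ 3 = Bh y * (Bh y * Bh y) := by ring
      rw [this, hBh]
      simp only
      rw [Finset.sum_mul_sum, Finset.sum_mul_sum, Finset.mul_sum]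
      refine Finset.sum_congr rfl fun b _ => ?_
      rw [Finset.mul_sum]
      refine Finset.sum_congr rfl fun b' _ => ?_
      rw [Finset.mul_sum, Finset.mul_sum]
      refine Finset.sum_congr rfl fun b'' _ => ?_
      rw [chi_add_right, chi_add_right, chi_add_right]
      ring
    rw [Finset.sum_congr rfl fun y _ => h1 y, Finset.sum_comm, Finset.card_filter]
    push_cast
    rw [Finset.mul_sum]
    refine Finset.sum_congr rfl fun p _ => ?_
    rw [Finset.sum_comm, Finset.sum_congr rfl fun b _ => chi_orth _]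
    have hz : ∀ b, p.1 + p.2 + z + b = 0 ↔ b = p.1 + p.2 + z := by
      intro b
      constructor
      · intro h
        ext i
        have := congrFun h i
        simp only [Pi.add_apply, Pi.zero_apply] at this ⊢
        revert this
        generalize p.1 i + p.2 i + z i = a
        generalize b i = a'
        revert a a'
        decide
      · rintro rfl
        ext i
        simp only [Pi.add_apply, Pi.zero_apply]
        generalize p.1 i + p.2 i + z i = a
        revert a
        decide
    simp_rw [hz]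
    rw [Finset.sum_ite_eq' B (p.1 + p.2 + z) (fun _ => (2 : ℝ) ^ m)]
    split_ifs <;> simp
  have hB0 : Bh 0 = B.card := by
    rw [hBh]
    simp [chi_zero_left]
  have hub : ∑ y, chi y z * Bh y ^ 3 ≤ D ^ 3 + lam * (2 ^ m * D) := by
    rw [← Finset.add_sum_erase _ _ (Finset.mem_univ (0 : Fin m → ZMod 2)), chi_zero_left, one_mul,
      hB0]
    have h1 : (B.card : ℝ) ^ 3 ≤ D ^ 3 := pow_le_pow_left₀ (Nat.cast_nonneg _) hD 3
    have h2 : ∑ y ∈ univ.erase (0 : Fin m → ZMod 2), chi y z * Bh y ^ 3 ≤
        ∑ y ∈ univ.erase (0 : Fin m → ZMod 2), lam * Bh y ^ 2 := by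
      refine Finset.sum_le_sum fun y hy => ?_
      refine (le_abs_self _).trans ?_
      rw [abs_mul, abs_chi, one_mul, abs_pow, pow_succ, mul_comm, sq_abs]
      exact mul_le_mul_of_nonneg_right (hlam y (Finset.ne_of_mem_erase hy)) (sq_nonneg _)
    have h3 : ∑ y ∈ univ.erase (0 : Fin m → ZMod 2), lam * Bh y ^ 2 ≤ ∑ y, lam * Bh y ^ 2 :=
      Finset.sum_le_sum_of_subset_of_nonneg (Finset.subset_univ _)
        fun y _ _ => mul_nonneg hlam0 (sq_nonneg _)
    have h3' : ∑ y, lam * Bh y ^ 2 = lam * (2 ^ m * B.card) := by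
      rw [← Finset.mul_sum, hpars]
    rw [h3'] at h3
    have h4 : lam * (2 ^ m * (B.card : ℝ)) ≤ lam * (2 ^ m * D) := by
      apply mul_le_mul_of_nonneg_left _ hlam0
      exact mul_le_mul_of_nonneg_left hD hP.le
    linarith
  rw [← hcount] at hub
  have h5 : (D ^ 2 / 2 ^ m + lam) * D = (D ^ 3 + lam * (2 ^ m * D)) / 2 ^ m := by
    field_simp
  rw [h5, le_div_iff₀ hP]
  linarith

end Pool.Agent.Q313.CJ
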