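import Pool.Agent.Q313.CJ.Core

/-! Character sums over `X K` when the combinations span. -/

open Finset Module

namespace Pool.Agent.Q313.CJ

set_option linter.unusedSectionVars false

variable {l : ℕ} {G : Type} [AddCommGroup G] [Module (ZMod 2) G]

/-- the properties of the forbidden set -/
structure Hyp (B : Finset G) (D Λ : ℝ) [DecidableEq G] : Prop where
  card : (B.card : ℝ) ≤ D
  one : 1 ≤ D
  pos : 0 ≤ Λ
  char : ∀ ψ : AddChar G ℝ, ψ ≠ 1 → |∑ b ∈ B, ψ b| ≤ Λ
  three : ∀ z : G, (((B ×ˢ B).filter (fun p => p.1 + p.2 + z ∈ B)).card : ℝ) ≤ Λ * D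

lemma comb_sum_smul {j : ℕ} (c : Fin j → ZMod 2) (u : Fin j → Fin l → ZMod 2) (x : Fin l → G) :
    comb (∑ i, c i • u i) x = comb c (fun i => comb (u i) x) := by
  have : ∀ s : Finset (Fin j), comb (∑ i ∈ s, c i • u i) x = ∑ i ∈ s, c i • comb (u i) x := by
    intro s
    classical
    induction s using Finset.induction_on with
    | empty => simp [comb_zero_left]
    | insert a s ha ih => rw [Finset.sum_insert ha, Finset.sum_insert ha, comb_add_left, ih,
        comb_smul_left]
  exact this univ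

lemma comb_single_right (e : Fin l → ZMod 2) (i : Fin l) (g : G) :
    comb e (Pi.single i g) = e i • g := by
  unfold comb
  rw [Finset.sum_eq_single i]
  · simp
  · intro k _ hk
    simp [Pi.single_eq_of_ne hk]
  · simp

lemma zmod2 (a : ZMod 2) (h : a ≠ 0) : a = 1 := by
  revert a
  decide

/-- pulling back along coordinates -/
def pull {j : ℕ} (c : (Fin l → ZMod 2) →ₗ[ZMod 2] (Fin j → ZMod 2)) (x : Fin j → G) :
    Fin l → G := fun k => comb (c (Pi.single k 1)) x

lemma comb_pull {j : ℕ} (c : (Fin l → ZMod 2) →ₗ[ZMod 2] (Fin j → ZMod 2)) (x : Fin j → G)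
    (v : Fin l → ZMod 2) : comb v (pull c x) = comb (c v) x := by
  have h1 : c v = ∑ k, v k • c (Pi.single k 1) := by
    conv_lhs => rw [← Finset.univ_sum_single v]
    rw [map_sum]
    refine Finset.sum_congr rfl fun k _ => ?_
    rw [← map_smul]
    congr 1
    rw [← Pi.single_smul]
    simp
  have h2 : ∀ s : Finset (Fin l), comb (∑ k ∈ s, v k • c (Pi.single k 1)) x
      = ∑ k ∈ s, v k • comb (c (Pi.single k 1)) x := by
    intro s
    classical
    induction s using Finset.induction_on with
    | empty => simp [comb_zero_left]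
    | insert a s ha ih => rw [Finset.sum_insert ha, Finset.sum_insert ha, comb_add_left, ih,
        comb_smul_left]
  rw [h1, h2]
  rfl

lemma pull_add {j : ℕ} (c : (Fin l → ZMod 2) →ₗ[ZMod 2] (Fin j → ZMod 2)) (x y : Fin j → G) :
    pull c (x + y) = pull c x + pull c y := by
  ext k
  simp only [pull, Pi.add_apply]
  rw [comb_add_right]

/-- coordinates modulo `K` -/
lemma coord (K : Submodule (ZMod 2) (Fin l → ZMod 2)) (R : Finset (Fin l → ZMod 2))
    (h1 : K ⊔ Submodule.span (ZMod 2) (R : Set (Fin l → ZMod 2)) = ⊤)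
    (h2 : l = finrank (ZMod 2) K + R.card) :
    ∃ (c : (Fin l → ZMod 2) →ₗ[ZMod 2] (Fin R.card → ZMod 2)) (u : Fin R.card → Fin l → ZMod 2),
      (∀ i, u i ∈ R) ∧ (∀ i, c (u i) = Pi.single i 1) ∧ (∀ k ∈ K, c k = 0) ∧
      ∀ v, ∃ k ∈ K, v = k + ∑ i, c v i • u i := by
  classical
  set e := R.equivFin.symm with he
  set u : Fin R.card → Fin l → ZMod 2 := fun i => (e i).1 with hu
  set Ψ : (Fin R.card → ZMod 2) →ₗ[ZMod 2] (Fin l → ZMod 2) :=
    Fintype.linearCombination (ZMod 2) u with hΨ
  set Φ : (K × (Fin R.card → ZMod 2)) →ₗ[ZMod 2] (Fin l → ZMod 2) :=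
    K.subtype.coprod Ψ with hΦ
  have hsurj : Function.Surjective Φ := by
    rw [← LinearMap.range_eq_top, hΦ, LinearMap.range_coprod, Submodule.range_subtype, hΨ,
      Fintype.range_linearCombination]
    rw [← h1]
    congr 2
    ext v
    simp only [Set.mem_range, Finset.mem_coe]
    constructor
    · rintro ⟨i, rfl⟩
      exact (e i).2
    · intro hv
      exact ⟨e.symm ⟨v, hv⟩, by simp [hu]⟩
  have hfin : finrank (ZMod 2) (K × (Fin R.card → ZMod 2)) =
      finrank (ZMod 2) (Fin l → ZMod 2) := by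
    rw [Module.finrank_prod, Module.finrank_fin_fun, Module.finrank_fin_fun]
    omega
  have hinj : Function.Injective Φ :=
    (LinearMap.injective_iff_surjective_of_finrank_eq_finrank hfin).2 hsurj
  set E := LinearEquiv.ofBijective Φ ⟨hinj, hsurj⟩ with hE
  have hEΦ : ∀ p, E p = Φ p := fun p => rfl
  refine ⟨(LinearMap.snd (ZMod 2) K (Fin R.card → ZMod 2)).comp E.symm.toLinearMap, u,
    fun i => (e i).2, ?_, ?_, ?_⟩
  · intro i
    have h3 : E (0, Pi.single i 1) = u i := by
      rw [hEΦ, hΦ]
      simp [hΨ, Fintype.linearCombination_apply, Pi.single_apply]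
    rw [← h3]
    simp
  · intro k hk
    have h3 : E (⟨k, hk⟩, 0) = k := by
      rw [hEΦ, hΦ]
      simp
    conv_lhs => rw [← h3]
    simp
  · intro v
    refine ⟨((E.symm v).1 : Fin l → ZMod 2), (E.symm v).1.2, ?_⟩
    have h3 : E (E.symm v) = v := E.apply_symm_apply v
    rw [hEΦ, hΦ] at h3
    simp only [LinearMap.coprod_apply, Submodule.subtype_apply, hΨ,
      Fintype.linearCombination_apply] at h3
    conv_lhs => rw [← h3]
    rfl

variable [Fintype G] [DecidableEq G]

lemma card_X (K : Submodule (ZMod 2) (Fin l → ZMod 2)) :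
    (XK G K).card = Fintype.card G ^ (l - finrank (ZMod 2) K) := by
  classical
  obtain ⟨R, -, h1, h2⟩ := exists_sub K (univ : Finset (Fin l → ZMod 2))
  have htop : K ⊔ Submodule.span (ZMod 2) ((univ : Finset (Fin l → ZMod 2)) : Set _) = ⊤ := by
    rw [Finset.coe_univ, Submodule.span_univ, sup_top_eq]
  rw [htop] at h1 h2
  rw [finrank_top, Module.finrank_fin_fun] at h2
  obtain ⟨c, u, hu, hcu, hcK, hv⟩ := coord K R h1 h2
  have e : l - finrank (ZMod 2) K = R.card := by omega
  rw [e]
  have h3 : (univ : Finset (Fin R.card → G)).card = Fintype.card G ^ R.card := by simp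
  rw [← h3]
  apply Finset.card_nbij' (fun x i => comb (u i) x) (fun x => pull c x)
  · intro x _
    simp
  · intro x _
    rw [Finset.mem_coe, mem_X]
    intro k hk
    rw [mem_kerV, comb_pull, hcK k hk, comb_zero_left]
  · intro x hx
    rw [Finset.mem_coe, mem_X] at hx
    funext k
    obtain ⟨k', hk', h4⟩ := hv (Pi.single k 1)
    have h5 : comb (Pi.single k 1) x = comb k' x +
        comb (∑ i, c (Pi.single k 1) i • u i) x := by
      rw [← comb_add_left, ← h4]
    rw [comb_single, mem_kerV.1 (hx hk'), zero_add, comb_sum_smul] at h5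
    exact h5.symm
  · intro x _
    funext i
    change comb (u i) (pull c x) = x i
    rw [comb_pull, hcu, comb_single]

end Pool.Agent.Q313.CJ
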