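import Mathlib

/-! Linear combinations, the groups `X K` and the counting lemmas for the LP hierarchy. -/

open Finset Module

namespace Pool.Agent.Q313.CJ

set_option linter.unusedSectionVars false

variable {l : ℕ} {G : Type} [AddCommGroup G] [Module (ZMod 2) G]

/-- the linear combination of the entries of `x` with coefficients `e` -/
def comb (e : Fin l → ZMod 2) (x : Fin l → G) : G := ∑ i, e i • x i

lemma comb_add_left (e f : Fin l → ZMod 2) (x : Fin l → G) :
    comb (e + f) x = comb e x + comb f x := by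
  simp [comb, add_smul, Finset.sum_add_distrib]

lemma comb_smul_left (c : ZMod 2) (e : Fin l → ZMod 2) (x : Fin l → G) :
    comb (c • e) x = c • comb e x := by
  simp [comb, mul_smul, Finset.smul_sum]

lemma comb_zero_left (x : Fin l → G) : comb (0 : Fin l → ZMod 2) x = 0 := by
  simp [comb]

lemma comb_add_right (e : Fin l → ZMod 2) (x y : Fin l → G) :
    comb e (x + y) = comb e x + comb e y := by
  simp [comb, Finset.sum_add_distrib]

lemma comb_sub_right (e : Fin l → ZMod 2) (x y : Fin l → G) :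
    comb e (x - y) = comb e x - comb e y := by
  simp [comb, smul_sub, Finset.sum_sub_distrib]

lemma comb_zero_right (e : Fin l → ZMod 2) : comb e (0 : Fin l → G) = 0 := by
  simp [comb]

lemma comb_single (i : Fin l) (x : Fin l → G) : comb (Pi.single i 1) x = x i := by
  unfold comb
  rw [Finset.sum_eq_single i]
  · simp
  · intro j _ hj
    simp [Pi.single_eq_of_ne hj]
  · simp

/-- the combinations killed by `x` -/
def kerV (x : Fin l → G) : Submodule (ZMod 2) (Fin l → ZMod 2) where
  carrier := {e | comb e x = 0}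
  add_mem' := by
    intro a b ha hb
    simp only [Set.mem_ofPred_eq] at ha hb ⊢
    rw [comb_add_left, ha, hb, add_zero]
  zero_mem' := comb_zero_left x
  smul_mem' := by
    intro c a ha
    simp only [Set.mem_ofPred_eq] at ha ⊢
    rw [comb_smul_left, ha, smul_zero]

lemma mem_kerV {x : Fin l → G} {e : Fin l → ZMod 2} : e ∈ kerV x ↔ comb e x = 0 := Iff.rfl

variable [Fintype G]

open scoped Classical in
/-- the tuples killed by all combinations in `K` -/
noncomputable def XK (G : Type) [AddCommGroup G] [Module (ZMod 2) G] [Fintype G] {l : ℕ}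
    (K : Submodule (ZMod 2) (Fin l → ZMod 2)) : Finset (Fin l → G) :=
  univ.filter fun x => K ≤ kerV x

lemma mem_X {K : Submodule (ZMod 2) (Fin l → ZMod 2)} {x : Fin l → G} :
    x ∈ XK G K ↔ K ≤ kerV x := by
  simp [XK]

lemma zero_mem_X (K : Submodule (ZMod 2) (Fin l → ZMod 2)) : (0 : Fin l → G) ∈ XK G K := by
  rw [mem_X]
  intro e _
  exact comb_zero_right e

lemma add_mem_X {K : Submodule (ZMod 2) (Fin l → ZMod 2)} {x y : Fin l → G}
    (hx : x ∈ XK G K) (hy : y ∈ XK G K) : x + y ∈ XK G K := by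
  rw [mem_X] at *
  intro e he
  rw [mem_kerV, comb_add_right, mem_kerV.1 (hx he), mem_kerV.1 (hy he), add_zero]

lemma sub_mem_X {K : Submodule (ZMod 2) (Fin l → ZMod 2)} {x y : Fin l → G}
    (hx : x ∈ XK G K) (hy : y ∈ XK G K) : x - y ∈ XK G K := by
  rw [mem_X] at *
  intro e he
  rw [mem_kerV, comb_sub_right, mem_kerV.1 (hx he), mem_kerV.1 (hy he), sub_zero]

lemma X_anti {K L : Submodule (ZMod 2) (Fin l → ZMod 2)} (h : K ≤ L) : XK G L ⊆ XK G K := by
  intro x hx
  rw [mem_X] at *
  exact h.trans hx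

lemma sup_span_le_iff {K : Submodule (ZMod 2) (Fin l → ZMod 2)} {S : Finset (Fin l → ZMod 2)}
    {L : Submodule (ZMod 2) (Fin l → ZMod 2)} :
    K ⊔ Submodule.span (ZMod 2) (S : Set (Fin l → ZMod 2)) ≤ L ↔ K ≤ L ∧ ∀ u ∈ S, u ∈ L := by
  rw [sup_le_iff, Submodule.span_le]
  rfl

lemma psi_sq (ψ : AddChar (Fin l → G) ℝ) (x : Fin l → G) : ψ x * ψ x = 1 := by
  rw [← AddChar.map_add_eq_mul]
  have : x + x = 0 := by
    ext i
    simp only [Pi.add_apply, Pi.zero_apply]
    rw [← two_smul (ZMod 2) (x i)]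
    have : (2 : ZMod 2) = 0 := rfl
    rw [this, zero_smul]
  rw [this, AddChar.map_zero_eq_one]

lemma abs_psi (ψ : AddChar (Fin l → G) ℝ) (x : Fin l → G) : |ψ x| = 1 := by
  have h := psi_sq ψ x
  have h2 : |ψ x| * |ψ x| = 1 := by rw [← abs_mul, h, abs_one]
  have h3 := abs_nonneg (ψ x)
  nlinarith

variable [DecidableEq G]

/-- the character sum over the tuples in `X K` with all combinations from `S` in `B` -/
noncomputable def T (B : Finset G) (ψ : AddChar (Fin l → G) ℝ)
    (K : Submodule (ZMod 2) (Fin l → ZMod 2)) (S : Finset (Fin l → ZMod 2)) : ℝ :=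
  ∑ x ∈ (XK G K).filter (fun x => ∀ u ∈ S, comb u x ∈ B), ψ x

lemma T_zero (B : Finset G) (ψ : AddChar (Fin l → G) ℝ)
    (K : Submodule (ZMod 2) (Fin l → ZMod 2)) (S : Finset (Fin l → ZMod 2)) {x₀ : Fin l → G}
    (h0 : x₀ ∈ XK G (K ⊔ Submodule.span (ZMod 2) (S : Set (Fin l → ZMod 2)))) (h1 : ψ x₀ ≠ 1) :
    T B ψ K S = 0 := by
  have hK : x₀ ∈ XK G K := X_anti le_sup_left h0
  have hS : ∀ u ∈ S, comb u x₀ = 0 := by
    rw [mem_X, sup_span_le_iff] at h0
    exact fun u hu => mem_kerV.1 (h0.2 u hu)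
  have e : T B ψ K S = ψ x₀ * T B ψ K S := by
    unfold T
    rw [Finset.mul_sum]
    symm
    apply Finset.sum_nbij' (fun x => x₀ + x) (fun x => x - x₀)
    · intro x hx
      rw [Finset.mem_filter] at hx ⊢
      refine ⟨add_mem_X hK hx.1, fun u hu => ?_⟩
      rw [comb_add_right, hS u hu, zero_add]
      exact hx.2 u hu
    · intro x hx
      rw [Finset.mem_filter] at hx ⊢
      refine ⟨sub_mem_X hx.1 hK, fun u hu => ?_⟩
      rw [comb_sub_right, hS u hu, sub_zero]
      exact hx.2 u hu
    · intro x _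
      abel
    · intro x _
      abel
    · intro x _
      rw [AddChar.map_add_eq_mul]
  have h2 : (1 - ψ x₀) * T B ψ K S = 0 := by linarith
  rcases mul_eq_zero.1 h2 with h | h
  · exact absurd (by linarith : ψ x₀ = 1) h1
  · exact h

lemma abs_T_le (B : Finset G) (ψ : AddChar (Fin l → G) ℝ)
    (K : Submodule (ZMod 2) (Fin l → ZMod 2)) (S : Finset (Fin l → ZMod 2)) :
    |T B ψ K S| ≤
      (((XK G K).filter (fun x => ∀ u ∈ S, comb u x ∈ B)).card : ℝ) := by
  unfold T
  refine (Finset.abs_sum_le_sum_abs _ _).trans ?_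
  rw [Finset.sum_congr rfl fun x _ => abs_psi ψ x]
  simp

lemma exists_sub (K : Submodule (ZMod 2) (Fin l → ZMod 2)) (S : Finset (Fin l → ZMod 2)) :
    ∃ R ⊆ S, K ⊔ Submodule.span (ZMod 2) (R : Set (Fin l → ZMod 2)) =
        K ⊔ Submodule.span (ZMod 2) (S : Set (Fin l → ZMod 2)) ∧
      finrank (ZMod 2) (K ⊔ Submodule.span (ZMod 2) (S : Set (Fin l → ZMod 2)) :
        Submodule (ZMod 2) (Fin l → ZMod 2)) = finrank (ZMod 2) K + R.card := by
  classical
  induction S using Finset.induction_on with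
  | empty =>
    refine ⟨∅, subset_rfl, rfl, ?_⟩
    rw [Finset.coe_empty, Submodule.span_empty, sup_bot_eq, Finset.card_empty, add_zero]
  | insert u S hu ih =>
    obtain ⟨R, hRS, h1, h2⟩ := ih
    have e1 : K ⊔ Submodule.span (ZMod 2) ((insert u S : Finset (Fin l → ZMod 2)) : Set _) =
        (K ⊔ Submodule.span (ZMod 2) (S : Set (Fin l → ZMod 2))) ⊔
          Submodule.span (ZMod 2) {u} := by
      rw [Finset.coe_insert, Submodule.span_insert, sup_assoc, sup_comm (Submodule.span _ {u})]
    by_cases hmem : u ∈ K ⊔ Submodule.span (ZMod 2) (S : Set (Fin l → ZMod 2))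
    · refine ⟨R, hRS.trans (Finset.subset_insert _ _), ?_, ?_⟩
      · rw [e1, h1]
        symm
        rw [sup_eq_left, Submodule.span_singleton_le_iff_mem]
        exact hmem
      · have e2 : (K ⊔ Submodule.span (ZMod 2) (S : Set (Fin l → ZMod 2))) ⊔
            Submodule.span (ZMod 2) {u} =
            K ⊔ Submodule.span (ZMod 2) (S : Set (Fin l → ZMod 2)) := by
          rw [sup_eq_left, Submodule.span_singleton_le_iff_mem]
          exact hmem
        rw [e1, e2, h2]
    · have huR : u ∉ R := fun h => hu (hRS h)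
      refine ⟨insert u R, Finset.insert_subset_insert _ hRS, ?_, ?_⟩
      · rw [e1, ← h1, Finset.coe_insert, Submodule.span_insert, sup_assoc,
          sup_comm (Submodule.span _ {u})]
      · rw [e1, Submodule.finrank_sup_span_singleton hmem, h2, Finset.card_insert_of_notMem huR]
        ring

lemma count_le (B : Finset G) (K : Submodule (ZMod 2) (Fin l → ZMod 2))
    {R S : Finset (Fin l → ZMod 2)} (hRS : R ⊆ S) :
    ((XK G K).filter (fun x => ∀ u ∈ S, comb u x ∈ B)).card ≤
      B.card ^ R.card *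
        (XK G (K ⊔ Submodule.span (ZMod 2) (R : Set (Fin l → ZMod 2)))).card := by
  set s := (XK G K).filter (fun x => ∀ u ∈ S, comb u x ∈ B) with hs
  set f : (Fin l → G) → (R → G) := fun x u => comb u.1 x with hf
  have h1 : s.image f ⊆ Fintype.piFinset (fun _ : R => B) := by
    intro y hy
    obtain ⟨x, hx, rfl⟩ := Finset.mem_image.1 hy
    rw [Fintype.mem_piFinset]
    intro u
    rw [hs, Finset.mem_filter] at hx
    exact hx.2 u.1 (hRS u.2)
  have h2 : (s.image f).card ≤ B.card ^ R.card := by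
    refine (Finset.card_le_card h1).trans (le_of_eq ?_)
    rw [Fintype.card_piFinset]
    simp
  have h3 := Finset.card_le_mul_card_image (f := f) s
    (XK G (K ⊔ Submodule.span (ZMod 2) (R : Set (Fin l → ZMod 2)))).card (by
      intro y hy
      obtain ⟨x₀, hx₀, rfl⟩ := Finset.mem_image.1 hy
      apply Finset.card_le_card_of_injOn (fun x => x - x₀)
      · intro x hx
        rw [Finset.mem_coe, Finset.mem_filter] at hx
        rw [Finset.mem_coe, mem_X, sup_span_le_iff]
        have a1 : x ∈ XK G K := (Finset.mem_filter.1 hx.1).1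
        have a2 : x₀ ∈ XK G K := (Finset.mem_filter.1 hx₀).1
        refine ⟨mem_X.1 (sub_mem_X a1 a2), fun u hu => ?_⟩
        rw [mem_kerV, comb_sub_right]
        have := congrFun hx.2 ⟨u, hu⟩
        simp only [hf] at this
        rw [this, sub_self]
      · intro x _ y _ hxy
        simpa using hxy)
  calc s.card ≤ _ := h3
    _ ≤ _ := by
      rw [mul_comm]
      exact Nat.mul_le_mul_right _ h2

end Pool.Agent.Q313.CJ
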