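import Pool.Agent.Q313.CJ.Kra

/-! Existence of a good check matrix. -/

open Finset Module

namespace Pool.Agent.Q313.CJ

set_option linter.unusedSectionVars false

/-- the Hamming ball -/
def ball (n d : ℕ) : Finset (Fin n → ZMod 2) := univ.filter fun e => hammingNorm e ≤ d

/-- words of very small or very large weight -/
def extreme (n t : ℕ) : Finset (Fin n → ZMod 2) :=
  univ.filter fun u => hammingNorm u < t ∨ n < hammingNorm u + t

lemma card_comb_mem {l : ℕ} {G : Type} [AddCommGroup G] [Module (ZMod 2) G] [Fintype G]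
    [DecidableEq G] (B : Finset G) {v : Fin l → ZMod 2} (hv : v ≠ 0) :
    (univ.filter (fun x : Fin l → G => comb v x ∈ B)).card ≤ B.card * Fintype.card G ^ (l - 1) := by
  have h1 := count_le B (⊥ : Submodule (ZMod 2) (Fin l → ZMod 2)) (subset_refl {v})
  have h2 : (XK G (⊥ : Submodule (ZMod 2) (Fin l → ZMod 2))).filter
      (fun x => ∀ u ∈ ({v} : Finset (Fin l → ZMod 2)), comb u x ∈ B) =
      univ.filter (fun x : Fin l → G => comb v x ∈ B) := by
    ext x
    rw [Finset.mem_filter, mem_X, Finset.mem_filter]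
    simp
  rwa [h2, card_X, Finset.card_singleton, pow_one, bot_sup_eq, Finset.coe_singleton,
    finrank_span_singleton hv] at h1

/-- transposition -/
def tr {n m : ℕ} (c : Fin n → Fin m → ZMod 2) : Fin m → Fin n → ZMod 2 := fun i k => c k i

lemma chi_comb {n m : ℕ} (c : Fin n → Fin m → ZMod 2) (y : Fin m → ZMod 2) (e : Fin n → ZMod 2) :
    chi y (comb e c) = chi (comb y (tr c)) e := by
  unfold chi
  congr 1
  have h1 : ∀ k, (comb e c) k = ∑ j, e j * c j k := by
    intro k
    simp [comb, Finset.sum_apply]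
  have h2 : ∀ j, (comb y (tr c)) j = ∑ k, y k * c j k := by
    intro j
    simp [comb, Finset.sum_apply, tr]
  simp_rw [h1, h2, Finset.mul_sum, Finset.sum_mul]
  rw [Finset.sum_comm]
  refine Finset.sum_congr rfl fun j _ => Finset.sum_congr rfl fun k _ => ?_
  ring

/-- the number of collisions -/
def coll {n m : ℕ} (d : ℕ) (c : Fin n → Fin m → ZMod 2) : ℕ :=
  ((ball n d ×ˢ ball n d).filter (fun p => p.1 ≠ p.2 ∧ comb p.1 c = comb p.2 c)).card

lemma exists_mat {n m t d : ℕ} (hn : 1 ≤ n) (hm : 1 ≤ m)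
    (h1 : 4 * (2 ^ m * (extreme n t).card) ≤ 2 ^ n) (h2 : 4 * (ball n d).card ≤ 2 ^ m) :
    ∃ c : Fin n → Fin m → ZMod 2, (∀ y, y ≠ 0 → comb y (tr c) ∉ extreme n t) ∧
      (∀ e ∈ ball n d, e ≠ 0 → comb e c ≠ 0) ∧
      coll d c * 2 ^ m ≤ 4 * (ball n d).card ^ 2 := by
  classical
  set Q := extreme n t with hQ
  set W := ball n d with hW
  have hV : 1 ≤ W.card := by
    rw [Nat.one_le_iff_ne_zero, ← Nat.pos_iff_ne_zero, Finset.card_pos]
    exact ⟨0, by rw [hW, ball, Finset.mem_filter]; simp⟩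
  set tot : ℕ := 2 ^ (n * m) with htot
  have htotc : Fintype.card (Fin n → Fin m → ZMod 2) = tot := by
    rw [Fintype.card_fun, Fintype.card_fun, ZMod.card, Fintype.card_fin, Fintype.card_fin,
      htot, ← pow_mul, mul_comm]
  have hGm : Fintype.card (Fin m → ZMod 2) = 2 ^ m := by simp
  have hGn : Fintype.card (Fin n → ZMod 2) = 2 ^ n := by simp
  have e1 : (2 ^ n) * (2 ^ n) ^ (m - 1) = tot := by
    rw [← pow_succ', show m - 1 + 1 = m by omega, ← pow_mul]
  have e2 : (2 ^ m) * (2 ^ m) ^ (n - 1) = tot := by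
    rw [← pow_succ', show n - 1 + 1 = n by omega, ← pow_mul, mul_comm]
  -- first bad event
  set A1 : Finset (Fin n → Fin m → ZMod 2) :=
    univ.filter (fun c => ∃ y, y ≠ 0 ∧ comb y (tr c) ∈ Q) with hA1
  have hA1c : 4 * A1.card ≤ tot := by
    have h3 : A1 ⊆ univ.biUnion (fun y : Fin m → ZMod 2 =>
        univ.filter (fun c : Fin n → Fin m → ZMod 2 => y ≠ 0 ∧ comb y (tr c) ∈ Q)) := by
      intro c hc
      rw [hA1, Finset.mem_filter] at hc
      obtain ⟨-, y, hy⟩ := hc
      rw [Finset.mem_biUnion]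
      exact ⟨y, Finset.mem_univ _, by rw [Finset.mem_filter]; exact ⟨Finset.mem_univ _, hy⟩⟩
    have h4 : ∀ y : Fin m → ZMod 2,
        (univ.filter (fun c : Fin n → Fin m → ZMod 2 => y ≠ 0 ∧ comb y (tr c) ∈ Q)).card ≤
          Q.card * (2 ^ n) ^ (m - 1) := by
      intro y
      by_cases hy : y = 0
      · rw [Finset.filter_false_of_mem]
        · simp
        · intro c _ h
          exact h.1 hy
      · rw [← hGn]
        refine le_trans ?_ (card_comb_mem Q hy)
        apply Finset.card_le_card_of_injOn tr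
        · intro c hc
          rw [Finset.mem_coe, Finset.mem_filter] at hc ⊢
          exact ⟨Finset.mem_univ _, hc.2.2⟩
        · intro c _ c' _ h
          funext k i
          exact congrFun (congrFun h i) k
    have h5 : A1.card ≤ 2 ^ m * (Q.card * (2 ^ n) ^ (m - 1)) := by
      refine (Finset.card_le_card h3).trans (Finset.card_biUnion_le.trans ?_)
      refine (Finset.sum_le_sum fun y _ => h4 y).trans (le_of_eq ?_)
      rw [Finset.sum_const, Finset.card_univ, hGm, smul_eq_mul]
    calc 4 * A1.card ≤ 4 * (2 ^ m * (Q.card * (2 ^ n) ^ (m - 1))) := Nat.mul_le_mul_left _ h5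
      _ = 4 * (2 ^ m * Q.card) * (2 ^ n) ^ (m - 1) := by ring
      _ ≤ 2 ^ n * (2 ^ n) ^ (m - 1) := Nat.mul_le_mul_right _ h1
      _ = tot := e1
  -- second bad event
  set A2 : Finset (Fin n → Fin m → ZMod 2) :=
    univ.filter (fun c => ∃ e ∈ W, e ≠ 0 ∧ comb e c = 0) with hA2
  have hcol : ∀ e : Fin n → ZMod 2, e ≠ 0 →
      (univ.filter (fun c : Fin n → Fin m → ZMod 2 => comb e c = 0)).card ≤ (2 ^ m) ^ (n - 1) := by
    intro e he
    have := card_comb_mem ({0} : Finset (Fin m → ZMod 2)) he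
    rw [hGm, Finset.card_singleton, one_mul] at this
    simpa only [Finset.mem_singleton] using this
  have hA2c : 4 * A2.card ≤ tot := by
    have h3 : A2 ⊆ W.biUnion (fun e =>
        univ.filter (fun c : Fin n → Fin m → ZMod 2 => e ≠ 0 ∧ comb e c = 0)) := by
      intro c hc
      rw [hA2, Finset.mem_filter] at hc
      obtain ⟨-, e, heW, he⟩ := hc
      rw [Finset.mem_biUnion]
      exact ⟨e, heW, by rw [Finset.mem_filter]; exact ⟨Finset.mem_univ _, he⟩⟩
    have h4 : ∀ e ∈ W,
        (univ.filter (fun c : Fin n → Fin m → ZMod 2 => e ≠ 0 ∧ comb e c = 0)).card ≤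
          (2 ^ m) ^ (n - 1) := by
      intro e _
      by_cases he : e = 0
      · rw [Finset.filter_false_of_mem]
        · simp
        · intro c _ h
          exact h.1 he
      · refine le_trans (Finset.card_le_card ?_) (hcol e he)
        intro c hc
        rw [Finset.mem_filter] at hc ⊢
        exact ⟨Finset.mem_univ _, hc.2.2⟩
    have h5 : A2.card ≤ W.card * (2 ^ m) ^ (n - 1) := by
      refine (Finset.card_le_card h3).trans (Finset.card_biUnion_le.trans ?_)
      refine (Finset.sum_le_sum fun y hy => h4 y hy).trans (le_of_eq ?_)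
      rw [Finset.sum_const, smul_eq_mul]
    calc 4 * A2.card ≤ 4 * (W.card * (2 ^ m) ^ (n - 1)) := Nat.mul_le_mul_left _ h5
      _ = 4 * W.card * (2 ^ m) ^ (n - 1) := by ring
      _ ≤ 2 ^ m * (2 ^ m) ^ (n - 1) := Nat.mul_le_mul_right _ h2
      _ = tot := e2
  -- third bad event
  set A3 : Finset (Fin n → Fin m → ZMod 2) :=
    univ.filter (fun c => 4 * W.card ^ 2 < coll d c * 2 ^ m) with hA3
  have hsum : ∑ c : Fin n → Fin m → ZMod 2, coll d c ≤ W.card ^ 2 * (2 ^ m) ^ (n - 1) := by
    have h3 : ∀ c : Fin n → Fin m → ZMod 2, coll d c =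
        ∑ p ∈ W ×ˢ W, if p.1 ≠ p.2 ∧ comb p.1 c = comb p.2 c then 1 else 0 := by
      intro c
      rw [coll, Finset.card_filter]
    rw [Finset.sum_congr rfl fun c _ => h3 c, Finset.sum_comm]
    have h4 : ∀ p ∈ W ×ˢ W, (∑ c : Fin n → Fin m → ZMod 2,
        if p.1 ≠ p.2 ∧ comb p.1 c = comb p.2 c then 1 else 0) ≤ (2 ^ m) ^ (n - 1) := by
      intro p _
      rw [← Finset.card_filter]
      by_cases hp : p.1 = p.2
      · rw [Finset.filter_false_of_mem]
        · simp
        · intro c _ h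
          exact h.1 hp
      · refine le_trans (Finset.card_le_card ?_) (hcol (p.1 - p.2) (sub_ne_zero.2 hp))
        intro c hc
        rw [Finset.mem_filter] at hc ⊢
        refine ⟨Finset.mem_univ _, ?_⟩
        have h5 : comb p.1 c = comb (p.1 - p.2) c + comb p.2 c := by
          rw [← comb_add_left, sub_add_cancel]
        rw [hc.2.2] at h5
        simpa using h5.symm
    refine (Finset.sum_le_sum h4).trans (le_of_eq ?_)
    rw [Finset.sum_const, Finset.card_product, smul_eq_mul, sq]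
  have hA3c : 4 * A3.card ≤ tot := by
    have h3 : A3.card * (4 * W.card ^ 2) ≤ W.card ^ 2 * tot := by
      calc A3.card * (4 * W.card ^ 2) = ∑ _c ∈ A3, 4 * W.card ^ 2 := by
            rw [Finset.sum_const, smul_eq_mul]
        _ ≤ ∑ c ∈ A3, coll d c * 2 ^ m := by
            refine Finset.sum_le_sum fun c hc => ?_
            rw [hA3, Finset.mem_filter] at hc
            exact hc.2.le
        _ ≤ ∑ c, coll d c * 2 ^ m :=
            Finset.sum_le_sum_of_subset (Finset.subset_univ _)
        _ = (∑ c, coll d c) * 2 ^ m := by rw [Finset.sum_mul]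
        _ ≤ W.card ^ 2 * (2 ^ m) ^ (n - 1) * 2 ^ m := Nat.mul_le_mul_right _ hsum
        _ = W.card ^ 2 * tot := by rw [← e2]; ring
    have h4 : 0 < W.card ^ 2 := by positivity
    have h5 : W.card ^ 2 * (4 * A3.card) ≤ W.card ^ 2 * tot := by
      calc W.card ^ 2 * (4 * A3.card) = A3.card * (4 * W.card ^ 2) := by ring
        _ ≤ _ := h3
    exact Nat.le_of_mul_le_mul_left h5 h4
  have hpos : 0 < tot := by positivity
  obtain ⟨c, hc⟩ : ∃ c : Fin n → Fin m → ZMod 2, c ∉ A1 ∪ A2 ∪ A3 := by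
    by_contra hcon
    push Not at hcon
    have h3 : (univ : Finset (Fin n → Fin m → ZMod 2)) ⊆ A1 ∪ A2 ∪ A3 := fun c _ => hcon c
    have h4 := Finset.card_le_card h3
    rw [Finset.card_univ, htotc] at h4
    have h5 := Finset.card_union_le (A1 ∪ A2) A3
    have h6 := Finset.card_union_le A1 A2
    omega
  rw [Finset.mem_union, Finset.mem_union, not_or, not_or] at hc
  obtain ⟨⟨hc1, hc2⟩, hc3⟩ := hc
  refine ⟨c, ?_, ?_, ?_⟩
  · intro y hy h
    apply hc1
    rw [hA1, Finset.mem_filter]
    exact ⟨Finset.mem_univ _, y, hy, h⟩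
  · intro e he he0 h
    apply hc2
    rw [hA2, Finset.mem_filter]
    exact ⟨Finset.mem_univ _, e, he, he0, h⟩
  · by_contra hcon
    apply hc3
    rw [hA3, Finset.mem_filter]
    exact ⟨Finset.mem_univ _, by omega⟩

end Pool.Agent.Q313.CJ
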