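import Pool.Agent.Q313.CJ.Coord

/-! The cancellation lemma. -/

open Finset Module

namespace Pool.Agent.Q313.CJ

set_option linter.unusedSectionVars false

variable {l : ℕ} {G : Type} [AddCommGroup G] [Module (ZMod 2) G] [Fintype G] [DecidableEq G]

/-- the restriction of a character to a coordinate -/
def coordChar {j : ℕ} (ψ : AddChar (Fin j → G) ℝ) (i : Fin j) : AddChar G ℝ where
  toFun g := ψ (Pi.single i g)
  map_zero_eq_one' := by rw [Pi.single_zero, AddChar.map_zero_eq_one]
  map_add_eq_mul' a b := by rw [Pi.single_add, AddChar.map_add_eq_mul]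

lemma coordChar_apply {j : ℕ} (ψ : AddChar (Fin j → G) ℝ) (i : Fin j) (g : G) :
    coordChar ψ i g = ψ (Pi.single i g) := rfl

lemma map_sum_psi {j : ℕ} {ι : Type} (ψ : AddChar (Fin j → G) ℝ) (s : Finset ι)
    (f : ι → Fin j → G) : ψ (∑ i ∈ s, f i) = ∏ i ∈ s, ψ (f i) := by
  classical
  induction s using Finset.induction_on with
  | empty => simp
  | insert a s ha ih => rw [Finset.sum_insert ha, Finset.prod_insert ha, AddChar.map_add_eq_mul, ih]

lemma psi_eq_prod {j : ℕ} (ψ : AddChar (Fin j → G) ℝ) (x : Fin j → G) :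
    ψ x = ∏ i, coordChar ψ i (x i) := by
  conv_lhs => rw [← Finset.univ_sum_single x]
  rw [map_sum_psi]
  rfl

lemma full_prod {j : ℕ} {B : Finset G} {D Λ : ℝ} (hB : Hyp B D Λ) (ψ : AddChar (Fin j → G) ℝ)
    (hψ : ψ ≠ 1) :
    |∑ x ∈ Fintype.piFinset (fun _ : Fin j => B), ψ x| ≤ D ^ (j - 1) * Λ := by
  obtain ⟨i₀, hi₀⟩ : ∃ i, coordChar ψ i ≠ 1 := by
    by_contra hcon
    push Not at hcon
    apply hψ
    ext x
    rw [psi_eq_prod]
    simp [hcon]
  have h1 : ∑ x ∈ Fintype.piFinset (fun _ : Fin j => B), ψ x =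
      ∏ i, ∑ g ∈ B, coordChar ψ i g := by
    rw [Finset.prod_univ_sum]
    exact Finset.sum_congr rfl fun x _ => psi_eq_prod ψ x
  have hD0 : 0 ≤ D := zero_le_one.trans hB.one
  have h2 : ∀ i, |∑ g ∈ B, coordChar ψ i g| ≤ D := by
    intro i
    refine (Finset.abs_sum_le_sum_abs _ _).trans ?_
    have : ∀ g ∈ B, |coordChar ψ i g| = 1 := fun g _ => abs_psi ψ _
    rw [Finset.sum_congr rfl this, Finset.sum_const, nsmul_eq_mul, mul_one]
    exact hB.card
  rw [h1, Finset.abs_prod, ← Finset.mul_prod_erase _ _ (Finset.mem_univ i₀), mul_comm]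
  apply mul_le_mul _ (hB.char _ hi₀) (abs_nonneg _) (by positivity)
  calc ∏ i ∈ univ.erase i₀, |∑ g ∈ B, coordChar ψ i g| ≤ ∏ i ∈ univ.erase i₀, D :=
        Finset.prod_le_prod (fun _ _ => abs_nonneg _) fun i _ => h2 i
    _ = D ^ (j - 1) := by
      rw [Finset.prod_const, Finset.card_erase_of_mem (Finset.mem_univ _), Finset.card_univ,
        Fintype.card_fin]

lemma full_count {j : ℕ} {B : Finset G} {D Λ : ℝ} (hB : Hyp B D Λ) (u : Fin j → ZMod 2)
    {i₁ i₂ : Fin j} (h12 : i₁ ≠ i₂) (h1 : u i₁ = 1) (h2 : u i₂ = 1) :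
    (((Fintype.piFinset (fun _ : Fin j => B)).filter (fun x => comb u x ∈ B)).card : ℝ) ≤
      D ^ (j - 1) * Λ := by
  have hD0 : 0 ≤ D := zero_le_one.trans hB.one
  set s := (Fintype.piFinset (fun _ : Fin j => B)).filter (fun x => comb u x ∈ B) with hs
  set f : (Fin j → G) → (Fin j → G) := fun x =>
    Function.update (Function.update x i₁ 0) i₂ 0 with hf
  set t := Fintype.piFinset (fun i : Fin j => if i = i₁ ∨ i = i₂ then ({0} : Finset G) else B)
    with ht
  have hft : ∀ x ∈ s, f x ∈ t := by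
    intro x hx
    rw [ht, Fintype.mem_piFinset]
    intro i
    rw [hs, Finset.mem_filter, Fintype.mem_piFinset] at hx
    simp only [hf, Function.update_apply]
    by_cases hi2 : i = i₂
    · simp [hi2]
    · by_cases hi1 : i = i₁
      · simp [hi1]
      · simp only [hi1, hi2, if_false, or_self]
        exact hx.1 i
  have hdec : ∀ x : Fin j → G, x = f x + Pi.single i₁ (x i₁) + Pi.single i₂ (x i₂) := by
    intro x
    funext i
    simp only [hf, Pi.add_apply, Function.update_apply, Pi.single_apply]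
    by_cases hi2 : i = i₂
    · subst hi2
      simp [h12.symm]
    · by_cases hi1 : i = i₁
      · subst hi1
        simp [h12]
      · simp [hi1, hi2]
  have hcomb : ∀ x : Fin j → G, comb u x = x i₁ + x i₂ + comb u (f x) := by
    intro x
    conv_lhs => rw [hdec x]
    rw [comb_add_right, comb_add_right, comb_single_right, comb_single_right, h1, h2, one_smul,
      one_smul]
    abel
  have hcard := Finset.card_eq_sum_card_fiberwise (f := f) (s := s) (t := t) hft
  have hfib : ∀ y ∈ t, ((s.filter (fun x => f x = y)).card : ℝ) ≤ Λ * D := by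
    intro y _
    refine le_trans ?_ (hB.three (comb u y))
    norm_cast
    apply Finset.card_le_card_of_injOn (fun x => (x i₁, x i₂))
    · intro x hx
      rw [Finset.mem_coe, Finset.mem_filter, hs, Finset.mem_filter, Fintype.mem_piFinset] at hx
      rw [Finset.mem_coe, Finset.mem_filter, Finset.mem_product]
      refine ⟨⟨hx.1.1 i₁, hx.1.1 i₂⟩, ?_⟩
      have := hx.1.2
      rw [hcomb, hx.2] at this
      exact this
    · intro x hx y' hy' hxy
      rw [Finset.mem_coe, Finset.mem_filter] at hx hy'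
      rw [hdec x, hdec y', hx.2, hy'.2]
      simp only [Prod.mk.injEq] at hxy
      rw [hxy.1, hxy.2]
  have hj : 2 ≤ j := by
    have h3 : ({i₁, i₂} : Finset (Fin j)).card ≤ j := by
      refine (Finset.card_le_univ _).trans (by simp)
    rwa [Finset.card_pair h12] at h3
  have htc : (t.card : ℝ) ≤ D ^ (j - 2) := by
    rw [ht, Fintype.card_piFinset]
    push_cast
    have e1 : ∀ i : Fin j, (((if i = i₁ ∨ i = i₂ then ({0} : Finset G) else B).card : ℕ) : ℝ) =
        if i ∈ ({i₁, i₂} : Finset (Fin j)) then 1 else (B.card : ℝ) := by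
      intro i
      simp only [Finset.mem_insert, Finset.mem_singleton]
      split_ifs <;> simp
    rw [Finset.prod_congr rfl fun i _ => e1 i, Finset.prod_ite, Finset.prod_const_one, one_mul,
      Finset.prod_const]
    have e2 : (univ.filter (fun i : Fin j => i ∉ ({i₁, i₂} : Finset (Fin j)))).card = j - 2 := by
      rw [← Finset.compl_filter, Finset.card_compl, Fintype.card_fin]
      congr 1
      rw [Finset.filter_mem_eq_inter, Finset.univ_inter, Finset.card_pair h12]
    rw [e2]
    exact pow_le_pow_left₀ (Nat.cast_nonneg _) hB.card _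
  calc (s.card : ℝ) = ∑ y ∈ t, ((s.filter (fun x => f x = y)).card : ℝ) := by
        rw [hcard]
        push_cast
        rfl
    _ ≤ ∑ y ∈ t, Λ * D := Finset.sum_le_sum hfib
    _ = t.card * (Λ * D) := by rw [Finset.sum_const, nsmul_eq_mul]
    _ ≤ D ^ (j - 2) * (Λ * D) := mul_le_mul_of_nonneg_right htc (mul_nonneg hB.pos hD0)
    _ = D ^ (j - 1) * Λ := by
      have : j - 1 = (j - 2) + 1 := by omega
      rw [this, pow_succ]
      ring

lemma full_std {j : ℕ} {B : Finset G} {D Λ : ℝ} (hB : Hyp B D Λ) (ψ : AddChar (Fin j → G) ℝ)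
    (hψ : ψ ≠ 1) (S : Finset (Fin j → ZMod 2)) (hS : ∀ i, Pi.single i 1 ∈ S)
    (h0 : (0 : Fin j → ZMod 2) ∉ S) :
    |T B ψ ⊥ S| ≤ D ^ (j - 1) * Λ := by
  have hX : XK G (⊥ : Submodule (ZMod 2) (Fin j → ZMod 2)) = univ := by
    ext x
    rw [mem_X]
    simp
  by_cases hall : ∀ u ∈ S, ∃ i, u = Pi.single i 1
  · have e : T B ψ ⊥ S = ∑ x ∈ Fintype.piFinset (fun _ : Fin j => B), ψ x := by
      unfold T
      rw [hX]
      congr 1
      ext x
      rw [Finset.mem_filter, Fintype.mem_piFinset]
      constructor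
      · rintro ⟨-, h⟩ i
        have := h _ (hS i)
        rwa [comb_single] at this
      · intro h
        refine ⟨Finset.mem_univ _, fun u hu => ?_⟩
        obtain ⟨i, rfl⟩ := hall u hu
        rw [comb_single]
        exact h i
    rw [e]
    exact full_prod hB ψ hψ
  · push Not at hall
    obtain ⟨u, hu, hne⟩ := hall
    have hu0 : u ≠ 0 := fun h => h0 (h ▸ hu)
    obtain ⟨i₁, hi₁⟩ : ∃ i, u i ≠ 0 := by
      by_contra hcon
      push Not at hcon
      exact hu0 (funext hcon)
    obtain ⟨i₂, hi₂⟩ : ∃ i, u i ≠ (Pi.single i₁ 1 : Fin j → ZMod 2) i := by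
      by_contra hcon
      push Not at hcon
      exact hne i₁ (funext hcon)
    have h1 := zmod2 _ hi₁
    have h12 : i₁ ≠ i₂ := by
      rintro rfl
      rw [Pi.single_eq_same] at hi₂
      exact hi₂ h1
    rw [Pi.single_eq_of_ne h12.symm] at hi₂
    have h2 := zmod2 _ hi₂
    refine (abs_T_le B ψ ⊥ S).trans (le_trans ?_ (full_count hB u h12 h1 h2))
    norm_cast
    apply Finset.card_le_card
    intro x hx
    rw [Finset.mem_filter] at hx
    rw [Finset.mem_filter, Fintype.mem_piFinset]
    refine ⟨fun i => ?_, hx.2 u hu⟩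
    have := hx.2 _ (hS i)
    rwa [comb_single] at this

lemma full {B : Finset G} {D Λ : ℝ} (hB : Hyp B D Λ) (ψ : AddChar (Fin l → G) ℝ)
    (K : Submodule (ZMod 2) (Fin l → ZMod 2)) (S : Finset (Fin l → ZMod 2))
    (hKS : K ⊔ Submodule.span (ZMod 2) (S : Set (Fin l → ZMod 2)) = ⊤)
    (hdis : ∀ u ∈ S, u ∉ K) {x₀ : Fin l → G} (hx₀ : x₀ ∈ XK G K) (hψ : ψ x₀ ≠ 1) :
    |T B ψ K S| ≤ D ^ (l - finrank (ZMod 2) K - 1) * Λ := by
  obtain ⟨R, hRS, h1, h2⟩ := exists_sub K S
  rw [hKS] at h1 h2
  rw [finrank_top, Module.finrank_fin_fun] at h2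
  obtain ⟨c, u, hu, hcu, hcK, hv⟩ := coord K R h1 h2
  have e : l - finrank (ZMod 2) K = R.card := by omega
  rw [e]
  set ψ' : AddChar (Fin R.card → G) ℝ :=
    { toFun := fun x => ψ (pull c x)
      map_zero_eq_one' := by
        have : pull c (0 : Fin R.card → G) = 0 := by
          funext k
          simp [pull, comb_zero_right]
        rw [this, AddChar.map_zero_eq_one]
      map_add_eq_mul' := fun a b => by rw [pull_add, AddChar.map_add_eq_mul] } with hψ'
  have hψ'a : ∀ x, ψ' x = ψ (pull c x) := fun _ => rfl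
  have hleft : ∀ x ∈ XK G K, pull c (fun i => comb (u i) x) = x := by
    intro x hx
    rw [mem_X] at hx
    funext k
    obtain ⟨k', hk', h4⟩ := hv (Pi.single k 1)
    have h5 : comb (Pi.single k 1) x = comb k' x +
        comb (∑ i, c (Pi.single k 1) i • u i) x := by
      rw [← comb_add_left, ← h4]
    rw [comb_single, mem_kerV.1 (hx hk'), zero_add, comb_sum_smul] at h5
    exact h5.symm
  have key : T B ψ K S = T B ψ' ⊥ (S.image c) := by
    unfold T
    apply Finset.sum_nbij' (fun x i => comb (u i) x) (fun x => pull c x)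
    · intro x hx
      rw [Finset.mem_filter] at hx ⊢
      refine ⟨by rw [mem_X]; exact bot_le, ?_⟩
      intro w hw
      obtain ⟨v, hvS, rfl⟩ := Finset.mem_image.1 hw
      rw [← comb_pull, hleft x hx.1]
      exact hx.2 v hvS
    · intro x hx
      rw [Finset.mem_filter] at hx ⊢
      refine ⟨?_, ?_⟩
      · rw [mem_X]
        intro k hk
        rw [mem_kerV, comb_pull, hcK k hk, comb_zero_left]
      · intro v hvS
        rw [comb_pull]
        exact hx.2 _ (Finset.mem_image_of_mem _ hvS)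
    · intro x hx
      exact hleft x (Finset.mem_filter.1 hx).1
    · intro x _
      funext i
      change comb (u i) (pull c x) = x i
      rw [comb_pull, hcu, comb_single]
    · intro x hx
      rw [hψ'a, hleft x (Finset.mem_filter.1 hx).1]
  rw [key]
  apply full_std hB
  · intro h
    apply hψ
    rw [← hleft x₀ hx₀, ← hψ'a, h]
    rfl
  · intro i
    rw [← hcu i]
    exact Finset.mem_image_of_mem _ (hRS (hu i))
  · intro h
    obtain ⟨v, hvS, hv0⟩ := Finset.mem_image.1 h
    apply hdis v hvS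
    obtain ⟨k, hk, h4⟩ := hv v
    rw [hv0] at h4
    simp only [Pi.zero_apply, zero_smul, Finset.sum_const_zero, add_zero] at h4
    rw [h4]
    exact hk

end Pool.Agent.Q313.CJ
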