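import Pool.Agent.Q313.CJ.Full

/-! Nonnegativity of the Fourier transform. -/

open Finset Module

namespace Pool.Agent.Q313.CJ

set_option linter.unusedSectionVars false

noncomputable instance subFintype (l : ℕ) :
    Fintype (Submodule (ZMod 2) (Fin l → ZMod 2)) := Fintype.ofFinite _

/-- the number of pairs (subspace, set of combinations) -/
noncomputable def cnt (l : ℕ) : ℝ :=
  (Fintype.card (Submodule (ZMod 2) (Fin l → ZMod 2)) : ℝ) *
    (Fintype.card (Finset (Fin l → ZMod 2)) : ℝ)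

lemma one_le_sub (l : ℕ) :
    (1 : ℝ) ≤ Fintype.card (Submodule (ZMod 2) (Fin l → ZMod 2)) := by
  exact_mod_cast Fintype.card_pos

lemma one_le_cnt (l : ℕ) : 1 ≤ cnt l := by
  have h2 : (1 : ℝ) ≤ Fintype.card (Finset (Fin l → ZMod 2)) := by
    exact_mod_cast Fintype.card_pos
  have h1 := one_le_sub l
  unfold cnt
  nlinarith

open scoped Classical in
/-- the weights -/
noncomputable def phi (l : ℕ) (s p : ℝ) (K : Submodule (ZMod 2) (Fin l → ZMod 2)) : ℝ :=
  if K = ⊤ then 1 - ∑ L ∈ univ.filter (fun L : Submodule (ZMod 2) (Fin l → ZMod 2) => L ≠ ⊤),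
    s * p ^ (l - finrank (ZMod 2) L - 1) else s * p ^ (l - finrank (ZMod 2) K - 1)

variable {l : ℕ} {G : Type} [AddCommGroup G] [Module (ZMod 2) G] [Fintype G] [DecidableEq G]

lemma sum_phi (s p : ℝ) : ∑ K, phi l s p K = 1 := by
  classical
  rw [← Finset.sum_filter_add_sum_filter_not univ
    (fun K : Submodule (ZMod 2) (Fin l → ZMod 2) => K = ⊤)]
  have e1 : univ.filter (fun K : Submodule (ZMod 2) (Fin l → ZMod 2) => K = ⊤) = {⊤} := by
    ext K
    simp
  rw [e1, Finset.sum_singleton]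
  have e2 : ∑ K ∈ univ.filter (fun K : Submodule (ZMod 2) (Fin l → ZMod 2) => ¬ K = ⊤),
      phi l s p K = ∑ L ∈ univ.filter (fun L : Submodule (ZMod 2) (Fin l → ZMod 2) => L ≠ ⊤),
    s * p ^ (l - finrank (ZMod 2) L - 1) := by
    refine Finset.sum_congr rfl fun K hK => ?_
    rw [Finset.mem_filter] at hK
    rw [phi, if_neg hK.2]
  rw [e2, phi, if_pos rfl]
  ring

lemma phi_ne {s p : ℝ} {K : Submodule (ZMod 2) (Fin l → ZMod 2)} (hK : K ≠ ⊤) :
    phi l s p K = s * p ^ (l - finrank (ZMod 2) K - 1) := by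
  rw [phi, if_neg hK]

lemma phi_top {s p : ℝ} (hs : 0 ≤ s) (hp0 : 0 ≤ p) (hp1 : p ≤ 1)
    (hs2 : s * (2 * Fintype.card (Submodule (ZMod 2) (Fin l → ZMod 2))) ≤ 1) :
    1 / 2 ≤ phi l s p ⊤ := by
  classical
  rw [phi, if_pos rfl]
  have h1 : ∑ L ∈ univ.filter (fun L : Submodule (ZMod 2) (Fin l → ZMod 2) => L ≠ ⊤),
      s * p ^ (l - finrank (ZMod 2) L - 1) ≤
      ∑ _L ∈ univ.filter (fun L : Submodule (ZMod 2) (Fin l → ZMod 2) => L ≠ ⊤), s := by
    refine Finset.sum_le_sum fun L _ => ?_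
    have : p ^ (l - finrank (ZMod 2) L - 1) ≤ 1 := pow_le_one₀ hp0 hp1
    nlinarith
  have h2 : ∑ _L ∈ univ.filter (fun L : Submodule (ZMod 2) (Fin l → ZMod 2) => L ≠ ⊤), s ≤
      Fintype.card (Submodule (ZMod 2) (Fin l → ZMod 2)) * s := by
    rw [Finset.sum_const, nsmul_eq_mul]
    apply mul_le_mul_of_nonneg_right _ hs
    exact_mod_cast Finset.card_le_univ _
  linarith

lemma phi_nonneg {s p : ℝ} (hs : 0 ≤ s) (hp0 : 0 ≤ p) (hp1 : p ≤ 1)
    (hs2 : s * (2 * Fintype.card (Submodule (ZMod 2) (Fin l → ZMod 2))) ≤ 1)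
    (K : Submodule (ZMod 2) (Fin l → ZMod 2)) : 0 ≤ phi l s p K := by
  by_cases hK : K = ⊤
  · rw [hK]
    have := phi_top (l := l) hs hp0 hp1 hs2
    linarith
  · rw [phi_ne hK]
    positivity

open scoped Classical in
/-- the pseudo-code -/
noncomputable def alpha (l : ℕ) (B : Finset G) (s p : ℝ) (x : Fin l → G) : ℝ :=
  (∑ K, phi l s p K * (if x ∈ XK G K then 1 else 0)) * (if ∀ v, comb v x ∉ B then 1 else 0)

lemma indicator_eq (B : Finset G) (x : Fin l → G) :
    (if ∀ v, comb v x ∉ B then (1 : ℝ) else 0) =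
      ∑ S : Finset (Fin l → ZMod 2), if ∀ u ∈ S, comb u x ∈ B then (-1 : ℝ) ^ S.card else 0 := by
  classical
  set E : Finset (Fin l → ZMod 2) := univ.filter (fun v => comb v x ∈ B) with hE
  have h1 : ∑ S : Finset (Fin l → ZMod 2), (if ∀ u ∈ S, comb u x ∈ B then (-1 : ℝ) ^ S.card else 0)
      = ∑ S ∈ E.powerset, (-1 : ℝ) ^ S.card := by
    rw [← Finset.sum_filter]
    congr 1
    ext S
    rw [Finset.mem_filter, Finset.mem_powerset]
    constructor
    · rintro ⟨-, h⟩ u hu
      rw [hE, Finset.mem_filter]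
      exact ⟨Finset.mem_univ _, h u hu⟩
    · intro h
      refine ⟨Finset.mem_univ _, fun u hu => ?_⟩
      have := h hu
      rw [hE, Finset.mem_filter] at this
      exact this.2
  have h2 : ∑ S ∈ E.powerset, (-1 : ℝ) ^ S.card = if E = ∅ then 1 else 0 := by
    have := Finset.sum_powerset_neg_one_pow_card (x := E)
    have h3 : ((∑ m ∈ E.powerset, (-1 : ℤ) ^ m.card : ℤ) : ℝ) = ((if E = ∅ then 1 else 0 : ℤ) : ℝ) :=
      by rw [this]
    push_cast at h3
    exact h3
  rw [h1, h2]
  congr 1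
  rw [hE, Finset.filter_eq_empty_iff]
  simp

lemma fourier_eq (B : Finset G) (s p : ℝ) (ψ : AddChar (Fin l → G) ℝ) :
    ∑ x, ψ x * alpha l B s p x =
      ∑ K, phi l s p K * ∑ S : Finset (Fin l → ZMod 2), (-1 : ℝ) ^ S.card * T B ψ K S := by
  classical
  have h1 : ∀ K : Submodule (ZMod 2) (Fin l → ZMod 2),
      ∑ S : Finset (Fin l → ZMod 2), (-1 : ℝ) ^ S.card * T B ψ K S =
      ∑ x, ψ x * ((if x ∈ XK G K then 1 else 0) * (if ∀ v, comb v x ∉ B then 1 else 0)) := by
    intro K
    simp_rw [indicator_eq B, Finset.mul_sum]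
    rw [Finset.sum_comm]
    refine Finset.sum_congr rfl fun S _ => ?_
    rw [T, Finset.mul_sum]
    refine (Finset.sum_congr rfl fun x hx => ?_).trans
      (Finset.sum_subset (Finset.subset_univ _) fun x _ hx => ?_)
    · rw [Finset.mem_filter] at hx
      rw [if_pos hx.1, if_pos hx.2]
      ring
    · rw [Finset.mem_filter, not_and_or] at hx
      rcases hx with hx | hx
      · rw [if_neg hx]
        ring
      · rw [if_neg hx]
        ring
  simp_rw [h1, alpha, Finset.mul_sum, Finset.sum_mul, Finset.mul_sum]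
  rw [Finset.sum_comm]
  refine Finset.sum_congr rfl fun K _ => Finset.sum_congr rfl fun x _ => ?_
  ring

lemma T_empty_triv (B : Finset G) (ψ : AddChar (Fin l → G) ℝ)
    (K : Submodule (ZMod 2) (Fin l → ZMod 2)) (h : ∀ x ∈ XK G K, ψ x = 1) :
    T B ψ K ∅ = (XK G K).card := by
  unfold T
  have : (XK G K).filter (fun x => ∀ u ∈ (∅ : Finset (Fin l → ZMod 2)), comb u x ∈ B) = XK G K := by
    apply Finset.filter_true_of_mem
    intro x _ u hu
    simp at hu
  rw [this, Finset.sum_congr rfl h]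
  simp

lemma T_empty_nontriv (B : Finset G) (ψ : AddChar (Fin l → G) ℝ)
    (K : Submodule (ZMod 2) (Fin l → ZMod 2)) {x₀ : Fin l → G} (h0 : x₀ ∈ XK G K)
    (h1 : ψ x₀ ≠ 1) : T B ψ K ∅ = 0 := by
  apply T_zero B ψ K ∅ (x₀ := x₀) _ h1
  rw [Finset.coe_empty, Submodule.span_empty, sup_bot_eq]
  exact h0

lemma T_empty_nonneg (B : Finset G) (ψ : AddChar (Fin l → G) ℝ)
    (K : Submodule (ZMod 2) (Fin l → ZMod 2)) : 0 ≤ T B ψ K ∅ := by
  by_cases h : ∀ x ∈ XK G K, ψ x = 1
  · rw [T_empty_triv B ψ K h]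
    exact Nat.cast_nonneg _
  · push Not at h
    obtain ⟨x₀, h0, h1⟩ := h
    rw [T_empty_nontriv B ψ K h0 h1]

lemma X_top : XK G (⊤ : Submodule (ZMod 2) (Fin l → ZMod 2)) = {0} := by
  ext x
  rw [mem_X, Finset.mem_singleton]
  constructor
  · intro h
    funext i
    have := mem_kerV.1 (h (Submodule.mem_top (x := (Pi.single i 1 : Fin l → ZMod 2))))
    rwa [comb_single] at this
  · rintro rfl e _
    exact comb_zero_right e

/-- the parameters -/
structure Par (l : ℕ) (N D Λ s p : ℝ) : Prop where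
  s0 : 0 < s
  p0 : 0 < p
  p1 : p ≤ 1
  pD : p * D * (2 * cnt l) ≤ 1
  sΛ : s * Λ * (4 * cnt l) ≤ 1
  s2 : s * (2 * Fintype.card (Submodule (ZMod 2) (Fin l → ZMod 2))) ≤ 1
  ND : D * (2 * cnt l) ≤ N

lemma bound {B : Finset G} {D Λ s p : ℝ} (hB : Hyp B D Λ) (h0B : (0 : G) ∉ B)
    (hp : Par l (Fintype.card G) D Λ s p) (ψ : AddChar (Fin l → G) ℝ)
    (K : Submodule (ZMod 2) (Fin l → ZMod 2)) (S : Finset (Fin l → ZMod 2)) (hS : S ≠ ∅) :
    phi l s p K * |T B ψ K S| * (2 * cnt l) ≤ ∑ L, phi l s p L * T B ψ L ∅ := by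
  classical
  have hc := one_le_cnt l
  have hD0 : 0 < D := lt_of_lt_of_le one_pos hB.one
  have hφ := phi_nonneg (l := l) hp.s0.le hp.p0.le hp.p1 hp.s2
  have hterm : ∀ L, 0 ≤ phi l s p L * T B ψ L ∅ := fun L =>
    mul_nonneg (hφ L) (T_empty_nonneg B ψ L)
  have htot0 : 0 ≤ ∑ L, phi l s p L * T B ψ L ∅ := Finset.sum_nonneg fun L _ => hterm L
  have hle : ∀ L, phi l s p L * T B ψ L ∅ ≤ ∑ L, phi l s p L * T B ψ L ∅ := fun L =>
    Finset.single_le_sum (f := fun L => phi l s p L * T B ψ L ∅) (fun L _ => hterm L)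
      (Finset.mem_univ L)
  have hzero : T B ψ K S = 0 → phi l s p K * |T B ψ K S| * (2 * cnt l) ≤
      ∑ L, phi l s p L * T B ψ L ∅ := by
    intro h
    rw [h, abs_zero, mul_zero, zero_mul]
    exact htot0
  by_cases hdis : ∃ u ∈ S, u ∈ K
  · apply hzero
    obtain ⟨u, huS, huK⟩ := hdis
    unfold T
    rw [Finset.filter_false_of_mem]
    · simp
    · intro x hx h
      have := h u huS
      rw [mem_X] at hx
      rw [mem_kerV.1 (hx huK)] at this
      exact h0B this
  push Not at hdis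
  obtain ⟨R, hRS, h1, h2⟩ := exists_sub K S
  set L := K ⊔ Submodule.span (ZMod 2) (S : Set (Fin l → ZMod 2)) with hL
  by_cases hψL : ∃ x₀ ∈ XK G L, ψ x₀ ≠ 1
  · obtain ⟨x₀, hx₀, hψ⟩ := hψL
    exact hzero (T_zero B ψ K S hx₀ hψ)
  push Not at hψL
  have hmain := T_empty_triv B ψ L hψL
  obtain ⟨u, hu⟩ := Finset.nonempty_iff_ne_empty.2 hS
  have huK := hdis u hu
  have huL : u ∈ L := by
    apply Submodule.mem_sup_right
    exact Submodule.subset_span hu
  have hK : K ≠ ⊤ := by
    rintro rfl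
    exact huK Submodule.mem_top
  have hR1 : 1 ≤ R.card := by
    by_contra hcon
    have hR0 : R.card = 0 := by omega
    rw [Finset.card_eq_zero] at hR0
    rw [hR0, Finset.coe_empty, Submodule.span_empty, sup_bot_eq] at h1
    rw [h1] at huK
    exact huK huL
  have hcount : |T B ψ K S| ≤ D ^ R.card * (XK G L).card := by
    refine (abs_T_le B ψ K S).trans ?_
    have h3 := count_le B K hRS
    rw [h1] at h3
    have h4 : (((XK G K).filter (fun x => ∀ u ∈ S, comb u x ∈ B)).card : ℝ) ≤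
        (B.card : ℝ) ^ R.card * (XK G L).card := by exact_mod_cast h3
    refine h4.trans ?_
    apply mul_le_mul_of_nonneg_right _ (Nat.cast_nonneg _)
    exact pow_le_pow_left₀ (Nat.cast_nonneg _) hB.card _
  have hKl : finrank (ZMod 2) K ≤ l := by
    have := Submodule.finrank_le K
    rwa [Module.finrank_fin_fun] at this
  have hLl : finrank (ZMod 2) L ≤ l := by
    have := Submodule.finrank_le L
    rwa [Module.finrank_fin_fun] at this
  by_cases hLtop : L = ⊤
  · have hr : l = finrank (ZMod 2) K + R.card := by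
      rw [hLtop, finrank_top, Module.finrank_fin_fun] at h2
      exact h2
    have hcd : l - finrank (ZMod 2) K = R.card := by omega
    rw [hLtop, X_top] at hcount
    simp only [Finset.card_singleton, Nat.cast_one, mul_one] at hcount
    by_cases hψK : ∃ x₀ ∈ XK G K, ψ x₀ ≠ 1
    · obtain ⟨x₀, hx₀, hψ⟩ := hψK
      have hf := full hB ψ K S (by rw [← hL]; exact hLtop) hdis hx₀ hψ
      rw [hcd] at hf
      have htop : 1 / 2 ≤ ∑ L, phi l s p L * T B ψ L ∅ := by
        refine le_trans ?_ (hle ⊤)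
        rw [T_empty_triv B ψ ⊤ (by
          intro x hx
          rw [X_top, Finset.mem_singleton] at hx
          rw [hx, AddChar.map_zero_eq_one]), X_top]
        simp only [Finset.card_singleton, Nat.cast_one, mul_one]
        exact phi_top hp.s0.le hp.p0.le hp.p1 hp.s2
      rw [phi_ne hK, hcd]
      have hpD : p * D ≤ 1 := by
        have : 0 ≤ p * D := mul_nonneg hp.p0.le hD0.le
        nlinarith [hp.pD]
      have hpow : (p * D) ^ (R.card - 1) ≤ 1 :=
        pow_le_one₀ (mul_nonneg hp.p0.le hD0.le) hpD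
      have hΛ := hB.pos
      calc s * p ^ (R.card - 1) * |T B ψ K S| * (2 * cnt l)
          ≤ s * p ^ (R.card - 1) * (D ^ (R.card - 1) * Λ) * (2 * cnt l) := by
            apply mul_le_mul_of_nonneg_right _ (by positivity)
            apply mul_le_mul_of_nonneg_left hf
            exact mul_nonneg hp.s0.le (pow_nonneg hp.p0.le _)
        _ = (p * D) ^ (R.card - 1) * (s * Λ * (2 * cnt l)) := by
            rw [mul_pow]
            ring
        _ ≤ 1 * (s * Λ * (2 * cnt l)) := by
            apply mul_le_mul_of_nonneg_right hpow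
            have := hp.s0.le
            positivity
        _ ≤ 1 / 2 := by linarith [hp.sΛ]
        _ ≤ _ := htop
    · push Not at hψK
      have hmK := T_empty_triv B ψ K hψK
      refine le_trans ?_ (hle K)
      rw [hmK, mul_assoc]
      apply mul_le_mul_of_nonneg_left _ (hφ K)
      rw [card_X, hcd]
      push_cast
      obtain ⟨r, hr'⟩ : ∃ r, R.card = r + 1 := ⟨R.card - 1, by omega⟩
      rw [hr'] at hcount ⊢
      have hN : D ≤ Fintype.card G := by nlinarith [hp.ND]
      calc |T B ψ K S| * (2 * cnt l) ≤ D ^ (r + 1) * (2 * cnt l) := by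
            apply mul_le_mul_of_nonneg_right hcount (by positivity)
        _ = D ^ r * (D * (2 * cnt l)) := by ring
        _ ≤ (Fintype.card G : ℝ) ^ r * Fintype.card G := by
            apply mul_le_mul (pow_le_pow_left₀ hD0.le hN _) hp.ND (by positivity) (by positivity)
        _ = _ := by ring
  · refine le_trans ?_ (hle L)
    have hLlt : finrank (ZMod 2) L < l := by
      rcases lt_or_eq_of_le hLl with h | h
      · exact h
      · exfalso
        apply hLtop
        apply Submodule.eq_top_of_finrank_eq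
        rw [h, Module.finrank_fin_fun]
    rw [hmain, phi_ne hK, phi_ne hLtop]
    have e1 : l - finrank (ZMod 2) K - 1 = (l - finrank (ZMod 2) L - 1) + R.card := by omega
    rw [e1, pow_add]
    obtain ⟨r, hr'⟩ : ∃ r, R.card = r + 1 := ⟨R.card - 1, by omega⟩
    rw [hr'] at hcount ⊢
    have hpD : p * D ≤ 1 := by
      have : 0 ≤ p * D := mul_nonneg hp.p0.le hD0.le
      nlinarith [hp.pD]
    have hpow : (p * D) ^ r ≤ 1 := pow_le_one₀ (mul_nonneg hp.p0.le hD0.le) hpD
    have hs0 := hp.s0.le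
    have hp0 := hp.p0.le
    calc s * (p ^ (l - finrank (ZMod 2) L - 1) * p ^ (r + 1)) * |T B ψ K S| * (2 * cnt l)
        ≤ s * (p ^ (l - finrank (ZMod 2) L - 1) * p ^ (r + 1)) *
            (D ^ (r + 1) * (XK G L).card) * (2 * cnt l) := by
          apply mul_le_mul_of_nonneg_right _ (by positivity)
          apply mul_le_mul_of_nonneg_left hcount
          positivity
      _ = s * p ^ (l - finrank (ZMod 2) L - 1) * (XK G L).card *
            ((p * D) ^ r * (p * D * (2 * cnt l))) := by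
          rw [mul_pow, pow_succ, pow_succ]
          ring
      _ ≤ s * p ^ (l - finrank (ZMod 2) L - 1) * (XK G L).card * (1 * 1) := by
          apply mul_le_mul_of_nonneg_left _ (by positivity)
          exact mul_le_mul hpow hp.pD (by positivity) zero_le_one
      _ = _ := by ring

/-- the Fourier transform of the pseudo-code is nonnegative -/
theorem fourier_nonneg {B : Finset G} {D Λ s p : ℝ} (hB : Hyp B D Λ) (h0B : (0 : G) ∉ B)
    (hp : Par l (Fintype.card G) D Λ s p) (ψ : AddChar (Fin l → G) ℝ) :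
    0 ≤ ∑ x, ψ x * alpha l B s p x := by
  classical
  have hc := one_le_cnt l
  rw [fourier_eq]
  set tot := ∑ L, phi l s p L * T B ψ L ∅ with htot
  have hφ := phi_nonneg (l := l) hp.s0.le hp.p0.le hp.p1 hp.s2
  have h1 : ∀ K, phi l s p K * ∑ S : Finset (Fin l → ZMod 2), (-1 : ℝ) ^ S.card * T B ψ K S ≥
      phi l s p K * T B ψ K ∅ -
        (Fintype.card (Finset (Fin l → ZMod 2)) : ℝ) * (tot / (2 * cnt l)) := by
    intro K
    rw [← Finset.add_sum_erase _ _ (Finset.mem_univ (∅ : Finset (Fin l → ZMod 2))),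
      Finset.card_empty, pow_zero, one_mul, mul_add, Finset.mul_sum]
    have h2 : ∑ S ∈ univ.erase (∅ : Finset (Fin l → ZMod 2)),
        phi l s p K * ((-1 : ℝ) ^ S.card * T B ψ K S) ≥
        ∑ _S ∈ univ.erase (∅ : Finset (Fin l → ZMod 2)), -(tot / (2 * cnt l)) := by
      refine Finset.sum_le_sum fun S hS => ?_
      have hb := bound hB h0B hp ψ K S (Finset.ne_of_mem_erase hS)
      have h3 : phi l s p K * |T B ψ K S| ≤ tot / (2 * cnt l) := by
        rw [le_div_iff₀ (by positivity)]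
        exact hb
      have h4 : |phi l s p K * ((-1 : ℝ) ^ S.card * T B ψ K S)| = phi l s p K * |T B ψ K S| := by
        rw [abs_mul, abs_mul, abs_of_nonneg (hφ K), abs_pow, abs_neg, abs_one, one_pow, one_mul]
      have h5 := neg_abs_le (phi l s p K * ((-1 : ℝ) ^ S.card * T B ψ K S))
      rw [h4] at h5
      linarith
    rw [Finset.sum_const, nsmul_eq_mul] at h2
    have h6 : ((univ.erase (∅ : Finset (Fin l → ZMod 2))).card : ℝ) ≤
        Fintype.card (Finset (Fin l → ZMod 2)) := by
      exact_mod_cast Finset.card_le_univ _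
    have h7 : 0 ≤ tot / (2 * cnt l) := by
      apply div_nonneg _ (by positivity)
      exact Finset.sum_nonneg fun L _ => mul_nonneg (hφ L) (T_empty_nonneg B ψ L)
    nlinarith
  have h8 : ∑ K, phi l s p K * ∑ S : Finset (Fin l → ZMod 2), (-1 : ℝ) ^ S.card * T B ψ K S ≥
      ∑ K, (phi l s p K * T B ψ K ∅ -
        (Fintype.card (Finset (Fin l → ZMod 2)) : ℝ) * (tot / (2 * cnt l))) :=
    Finset.sum_le_sum fun K _ => h1 K
  rw [Finset.sum_sub_distrib, Finset.sum_const, Finset.card_univ, nsmul_eq_mul, ← htot,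
    ← mul_assoc] at h8
  have h9 : (Fintype.card (Submodule (ZMod 2) (Fin l → ZMod 2)) : ℝ) *
      (Fintype.card (Finset (Fin l → ZMod 2)) : ℝ) = cnt l := rfl
  rw [h9] at h8
  have h10 : cnt l * (tot / (2 * cnt l)) = tot / 2 := by
    field_simp
  rw [h10] at h8
  have h11 : 0 ≤ tot := Finset.sum_nonneg fun L _ => mul_nonneg (hφ L) (T_empty_nonneg B ψ L)
  linarith

lemma alpha_zero {B : Finset G} (h0B : (0 : G) ∉ B) (s p : ℝ) :
    alpha l B s p (0 : Fin l → G) = 1 := by
  classical
  unfold alpha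
  rw [if_pos (by
    intro v
    rw [comb_zero_right]
    exact h0B), mul_one]
  refine (Finset.sum_congr rfl fun K _ => ?_).trans (sum_phi (l := l) s p)
  rw [if_pos (zero_mem_X K), mul_one]

lemma alpha_nonneg {B : Finset G} {s p : ℝ} (hs : 0 ≤ s) (hp0 : 0 ≤ p) (hp1 : p ≤ 1)
    (hs2 : s * (2 * Fintype.card (Submodule (ZMod 2) (Fin l → ZMod 2))) ≤ 1) (x : Fin l → G) :
    0 ≤ alpha l B s p x := by
  classical
  unfold alpha
  apply mul_nonneg
  · apply Finset.sum_nonneg
    intro K _
    apply mul_nonneg (phi_nonneg hs hp0 hp1 hs2 K)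
    split_ifs <;> norm_num
  · split_ifs <;> norm_num

lemma alpha_bad {B : Finset G} {s p : ℝ} {x : Fin l → G} {v : Fin l → ZMod 2}
    (h : comb v x ∈ B) : alpha l B s p x = 0 := by
  unfold alpha
  rw [if_neg (fun h' => h' v h), mul_zero]

/-- the value of the pseudo-code -/
lemma alpha_sum {B : Finset G} {D s p : ℝ} (hl : 1 ≤ l) (h0B : (0 : G) ∉ B)
    (hBD : (B.card : ℝ) ≤ D)
    (hs : 0 ≤ s) (hp0 : 0 ≤ p) (hp1 : p ≤ 1)
    (hs2 : s * (2 * Fintype.card (Submodule (ZMod 2) (Fin l → ZMod 2))) ≤ 1)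
    (hN : D * (2 * cnt l) ≤ Fintype.card G) :
    s * p ^ (l - 1) * (Fintype.card G : ℝ) ^ l / 2 ≤ ∑ x, alpha l B s p x := by
  classical
  have hD0 : 0 ≤ D := (Nat.cast_nonneg _).trans hBD
  have hc := one_le_cnt l
  have hφ := phi_nonneg (l := l) hs hp0 hp1 hs2
  set N : ℝ := (Fintype.card G : ℝ) with hNd
  have hN0 : 0 ≤ N := Nat.cast_nonneg _
  set bad : (Fin l → ZMod 2) → Finset (Fin l → G) := fun v => univ.filter (fun x => comb v x ∈ B)
    with hbad
  set good : Finset (Fin l → G) := univ.filter (fun x => ∀ v, comb v x ∉ B) with hgood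
  have hbadc : ∀ v, ((bad v).card : ℝ) ≤ D * N ^ (l - 1) := by
    intro v
    by_cases hv : v = 0
    · have : bad v = ∅ := by
        rw [hbad, Finset.filter_eq_empty_iff]
        intro x _
        rw [hv, comb_zero_left]
        exact h0B
      rw [this]
      simp only [Finset.card_empty, Nat.cast_zero]
      positivity
    · have h1 := count_le B (⊥ : Submodule (ZMod 2) (Fin l → ZMod 2)) (subset_refl {v})
      have h2 : (XK G (⊥ : Submodule (ZMod 2) (Fin l → ZMod 2))).filter
          (fun x => ∀ u ∈ ({v} : Finset (Fin l → ZMod 2)), comb u x ∈ B) = bad v := by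
        ext x
        rw [Finset.mem_filter, mem_X, hbad, Finset.mem_filter]
        simp
      rw [h2, card_X, Finset.card_singleton, pow_one, bot_sup_eq, Finset.coe_singleton,
        finrank_span_singleton hv] at h1
      have h3 : ((bad v).card : ℝ) ≤ B.card * N ^ (l - 1) := by
        rw [hNd]
        exact_mod_cast h1
      exact h3.trans (mul_le_mul_of_nonneg_right hBD (by positivity))
  have hsplit : (Fintype.card (Fin l → G) : ℝ) ≤ good.card + ∑ v, ((bad v).card : ℝ) := by
    have h1 : (univ : Finset (Fin l → G)) ⊆ good ∪ univ.biUnion bad := by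
      intro x _
      rw [Finset.mem_union]
      by_cases h : ∀ v, comb v x ∉ B
      · left
        rw [hgood, Finset.mem_filter]
        exact ⟨Finset.mem_univ _, h⟩
      · right
        push Not at h
        obtain ⟨v, hv⟩ := h
        rw [Finset.mem_biUnion]
        refine ⟨v, Finset.mem_univ _, ?_⟩
        rw [hbad, Finset.mem_filter]
        exact ⟨Finset.mem_univ _, hv⟩
    have h2 := (Finset.card_le_card h1).trans ((Finset.card_union_le _ _).trans
      (Nat.add_le_add_left Finset.card_biUnion_le _))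
    rw [Finset.card_univ] at h2
    exact_mod_cast h2
  have hcardV : (Fintype.card (Fin l → ZMod 2) : ℝ) ≤ cnt l := by
    have h1 : (Fintype.card (Fin l → ZMod 2) : ℝ) ≤ Fintype.card (Finset (Fin l → ZMod 2)) := by
      rw [Fintype.card_finset]
      exact_mod_cast (Nat.lt_two_pow_self).le
    have h2 := one_le_sub l
    have h3 : (0 : ℝ) ≤ Fintype.card (Finset (Fin l → ZMod 2)) := Nat.cast_nonneg _
    unfold cnt
    nlinarith
  have hgoodc : N ^ l / 2 ≤ good.card := by
    have h1 : ∑ v, ((bad v).card : ℝ) ≤ cnt l * (D * N ^ (l - 1)) := by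
      calc ∑ v, ((bad v).card : ℝ) ≤ ∑ _v : Fin l → ZMod 2, D * N ^ (l - 1) :=
            Finset.sum_le_sum fun v _ => hbadc v
        _ = Fintype.card (Fin l → ZMod 2) * (D * N ^ (l - 1)) := by
            rw [Finset.sum_const, Finset.card_univ, nsmul_eq_mul]
        _ ≤ _ := mul_le_mul_of_nonneg_right hcardV (by positivity)
    have h2 : N ^ l = N * N ^ (l - 1) := by
      rw [← pow_succ']
      congr 1
      omega
    have h3 : D * (2 * cnt l) * N ^ (l - 1) ≤ N * N ^ (l - 1) :=
      mul_le_mul_of_nonneg_right hN (by positivity)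
    have h4 : (Fintype.card (Fin l → G) : ℝ) = N ^ l := by
      rw [Fintype.card_fun, Fintype.card_fin]
      push_cast
      rfl
    rw [h4] at hsplit
    nlinarith
  have hbot : (⊥ : Submodule (ZMod 2) (Fin l → ZMod 2)) ≠ ⊤ := by
    intro h
    have h1 : finrank (ZMod 2) (⊥ : Submodule (ZMod 2) (Fin l → ZMod 2)) =
      finrank (ZMod 2) (⊤ : Submodule (ZMod 2) (Fin l → ZMod 2)) := by rw [h]
    rw [finrank_bot, finrank_top, Module.finrank_fin_fun] at h1
    omega
  calc s * p ^ (l - 1) * N ^ l / 2 = phi l s p ⊥ * (N ^ l / 2) := by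
        rw [phi_ne hbot, finrank_bot, Nat.sub_zero]
        ring
    _ ≤ phi l s p ⊥ * good.card := mul_le_mul_of_nonneg_left hgoodc (hφ _)
    _ = ∑ _x ∈ good, phi l s p ⊥ := by rw [Finset.sum_const, nsmul_eq_mul, mul_comm]
    _ ≤ ∑ x ∈ good, alpha l B s p x := by
        refine Finset.sum_le_sum fun x hx => ?_
        rw [hgood, Finset.mem_filter] at hx
        unfold alpha
        rw [if_pos hx.2, mul_one]
        have h1 := Finset.single_le_sum
          (f := fun K => phi l s p K * (if x ∈ XK G K then (1 : ℝ) else 0))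
          (fun K _ => mul_nonneg (hφ K) (by split_ifs <;> norm_num))
          (Finset.mem_univ (⊥ : Submodule (ZMod 2) (Fin l → ZMod 2)))
        have h2 : x ∈ XK G (⊥ : Submodule (ZMod 2) (Fin l → ZMod 2)) := by
          rw [mem_X]
          exact bot_le
        rw [if_pos h2, mul_one] at h1
        exact h1
    _ ≤ ∑ x, alpha l B s p x :=
        Finset.sum_le_sum_of_subset_of_nonneg (Finset.subset_univ _)
          fun x _ _ => alpha_nonneg hs hp0 hp1 hs2 x

end Pool.Agent.Q313.CJ
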