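import Pool.Agent.Q313.CJ.Exist
import Pool.Agent.Q313.CJ.Pos

/-! From a check matrix to a feasible solution of the LP hierarchy. -/

open Finset Module

namespace Pool.Agent.Q313.CJ

set_option linter.unusedSectionVars false

lemma coll_gen {α β : Type} [DecidableEq α] [DecidableEq β] (s : Finset α) (f : α → β)
    (g : β → ℝ) (hg : ∀ b, |g b| ≤ 1) :
    |∑ b ∈ s.image f, g b| ≤ |∑ a ∈ s, g (f a)| +
      ((s ×ˢ s).filter (fun p => p.1 ≠ p.2 ∧ f p.1 = f p.2)).card := by
  set P := (s ×ˢ s).filter (fun p => p.1 ≠ p.2 ∧ f p.1 = f p.2) with hP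
  have h1 : ∑ a ∈ s, g (f a) = ∑ b ∈ s.image f, ((s.filter (fun a => f a = b)).card : ℝ) * g b := by
    rw [← Finset.sum_fiberwise_of_maps_to (g := f) (t := s.image f)
      (fun a ha => Finset.mem_image_of_mem f ha)]
    refine Finset.sum_congr rfl fun b _ => ?_
    rw [Finset.sum_congr rfl (g := fun _ => g b) fun a ha => by
      rw [(Finset.mem_filter.1 ha).2]]
    rw [Finset.sum_const, nsmul_eq_mul]
  have h2 : (P.card : ℝ) = ∑ b ∈ s.image f, ((P.filter (fun p => f p.1 = b)).card : ℝ) := by
    have := Finset.card_eq_sum_card_fiberwise (f := fun p : α × α => f p.1) (s := P)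
      (t := s.image f) (by
        intro p hp
        rw [Finset.mem_coe, hP, Finset.mem_filter, Finset.mem_product] at hp
        exact Finset.mem_image_of_mem f hp.1.1)
    rw [this]
    push_cast
    rfl
  have h3 : ∀ b ∈ s.image f, ((s.filter (fun a => f a = b)).card : ℝ) - 1 ≤
      ((P.filter (fun p => f p.1 = b)).card : ℝ) := by
    intro b hb
    have h4 : (s.filter (fun a => f a = b)).offDiag ⊆ P.filter (fun p => f p.1 = b) := by
      intro p hp
      rw [Finset.mem_offDiag, Finset.mem_filter, Finset.mem_filter] at hp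
      rw [Finset.mem_filter, hP, Finset.mem_filter, Finset.mem_product]
      exact ⟨⟨⟨hp.1.1, hp.2.1.1⟩, hp.2.2, by rw [hp.1.2, hp.2.1.2]⟩, hp.1.2⟩
    have h5 := Finset.card_le_card h4
    rw [Finset.offDiag_card] at h5
    have h6 : 1 ≤ (s.filter (fun a => f a = b)).card := by
      obtain ⟨a, ha, hab⟩ := Finset.mem_image.1 hb
      rw [Nat.one_le_iff_ne_zero, ← Nat.pos_iff_ne_zero, Finset.card_pos]
      exact ⟨a, by rw [Finset.mem_filter]; exact ⟨ha, hab⟩⟩
    set k := (s.filter (fun a => f a = b)).card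
    have h7 : k ≤ k * k := Nat.le_mul_self k
    have h8 : k * k ≤ (P.filter (fun p => f p.1 = b)).card + k := by omega
    have h9 : (k : ℝ) * k ≤ ((P.filter (fun p => f p.1 = b)).card : ℝ) + k := by exact_mod_cast h8
    have h10 : (1 : ℝ) ≤ k := by exact_mod_cast h6
    nlinarith
  have h4 : ∑ b ∈ s.image f, g b = ∑ a ∈ s, g (f a) -
      ∑ b ∈ s.image f, (((s.filter (fun a => f a = b)).card : ℝ) - 1) * g b := by
    rw [h1, ← Finset.sum_sub_distrib]
    refine Finset.sum_congr rfl fun b _ => ?_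
    ring
  have h5 : |∑ b ∈ s.image f, (((s.filter (fun a => f a = b)).card : ℝ) - 1) * g b| ≤ P.card := by
    refine (Finset.abs_sum_le_sum_abs _ _).trans ?_
    rw [h2]
    refine Finset.sum_le_sum fun b hb => ?_
    rw [abs_mul]
    have h6 : 1 ≤ (s.filter (fun a => f a = b)).card := by
      obtain ⟨a, ha, hab⟩ := Finset.mem_image.1 hb
      rw [Nat.one_le_iff_ne_zero, ← Nat.pos_iff_ne_zero, Finset.card_pos]
      exact ⟨a, by rw [Finset.mem_filter]; exact ⟨ha, hab⟩⟩
    have h7 : (1 : ℝ) ≤ ((s.filter (fun a => f a = b)).card : ℝ) := by exact_mod_cast h6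
    rw [abs_of_nonneg (by linarith)]
    calc _ ≤ (((s.filter (fun a => f a = b)).card : ℝ) - 1) * 1 :=
          mul_le_mul_of_nonneg_left (hg b) (by linarith)
      _ ≤ _ := by rw [mul_one]; exact h3 b hb
  rw [h4]
  exact (abs_sub _ _).trans (add_le_add_right h5 _)

/-- the forbidden set in the quotient -/
def img {n m : ℕ} (d : ℕ) (c : Fin n → Fin m → ZMod 2) : Finset (Fin m → ZMod 2) :=
  ((ball n d).erase 0).image (fun e => comb e c)

lemma img_card_le {n m d : ℕ} (c : Fin n → Fin m → ZMod 2) :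
    (img d c).card ≤ (ball n d).card :=
  Finset.card_image_le.trans (Finset.card_le_card (Finset.erase_subset _ _))

lemma img_hyp {n m t d : ℕ} (c : Fin n → Fin m → ZMod 2)
    (h1 : ∀ y, y ≠ 0 → comb y (tr c) ∉ extreme n t) {D lam r : ℝ} (hr0 : 0 < r) (hr1 : r ≤ 1)
    (hD : ((ball n d).card : ℝ) ≤ D) (hD1 : 1 ≤ D)
    (hlam : (1 + r ^ 2) ^ t * (1 + r) ^ (n - 2 * t) / r ^ d + 1 + coll d c ≤ lam) :
    Hyp (img d c) D (D ^ 2 / 2 ^ m + lam) := by
  have hlam0 : 0 ≤ lam := by
    refine le_trans ?_ hlam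
    positivity
  have hBD : ((img d c).card : ℝ) ≤ D := by
    refine le_trans ?_ hD
    exact_mod_cast img_card_le c
  have hchi : ∀ y, y ≠ 0 → |∑ b ∈ img d c, chi y b| ≤ lam := by
    intro y hy
    have hu := h1 y hy
    set u := comb y (tr c) with hu'
    rw [extreme, Finset.mem_filter] at hu
    have hu2 : t ≤ hammingNorm u ∧ hammingNorm u + t ≤ n := by
      constructor
      · by_contra hcon
        exact hu ⟨Finset.mem_univ _, Or.inl (by omega)⟩
      · by_contra hcon
        exact hu ⟨Finset.mem_univ _, Or.inr (by omega)⟩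
    have h2 := ball_sum_le (d := d) u hu2.1 hu2.2 hr0 hr1
    have h3 := coll_gen ((ball n d).erase 0) (fun e => comb e c) (chi y)
      (fun b => (abs_chi y b).le)
    have h4 : ∑ a ∈ (ball n d).erase 0, chi y (comb a c) =
        ∑ e ∈ ball n d, chi u e - 1 := by
      have h5 : (0 : Fin n → ZMod 2) ∈ ball n d := by
        rw [ball, Finset.mem_filter]
        simp
      rw [← Finset.add_sum_erase _ _ h5, chi_zero_right]
      rw [Finset.sum_congr rfl fun a _ => chi_comb c y a]
      ring
    rw [h4] at h3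
    have h6 : ((((ball n d).erase 0 ×ˢ (ball n d).erase 0).filter
        (fun p => p.1 ≠ p.2 ∧ comb p.1 c = comb p.2 c)).card : ℝ) ≤ coll d c := by
      rw [coll]
      exact_mod_cast Finset.card_le_card (Finset.filter_subset_filter _
        (Finset.product_subset_product (Finset.erase_subset _ _) (Finset.erase_subset _ _)))
    have h7 : |∑ e ∈ ball n d, chi u e - 1| ≤ |∑ e ∈ ball n d, chi u e| + 1 := by
      refine (abs_sub _ _).trans ?_
      rw [abs_one]
    have h8 : |∑ e ∈ ball n d, chi u e| ≤ (1 + r ^ 2) ^ t * (1 + r) ^ (n - 2 * t) / r ^ d := h2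
    refine h3.trans ?_
    linarith
  refine ⟨hBD, hD1, by positivity, ?_, fun z => three_le _ hBD hlam0 hchi z⟩
  intro ψ hψ
  obtain ⟨y, hy⟩ := exists_chi ψ
  rw [Finset.sum_congr rfl fun b _ => hy b]
  have hy0 : y ≠ 0 := by
    rintro rfl
    apply hψ
    ext v
    rw [hy, chi_zero_left]
    rfl
  have := hchi y hy0
  have h9 : 0 ≤ D ^ 2 / 2 ^ m := by positivity
  linarith

/-! ### the characters of tuples -/

/-- the character of the group of tuples with frequency `y` -/
def chi2 {l n : ℕ} (y x : Fin l → Fin n → ZMod 2) : ℝ := ∏ i, chi (y i) (x i)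

/-- `chi2 y` as a character -/
def chi2Char {l n : ℕ} (y : Fin l → Fin n → ZMod 2) : AddChar (Fin l → Fin n → ZMod 2) ℝ where
  toFun := chi2 y
  map_zero_eq_one' := by simp [chi2, chi_zero_right]
  map_add_eq_mul' := by
    intro a b
    simp [chi2, chi_add_right, Finset.prod_mul_distrib]

lemma chi2_comm {l n : ℕ} (y x : Fin l → Fin n → ZMod 2) : chi2 y x = chi2 x y :=
  Finset.prod_congr rfl fun _ _ => chi_comm _ _

lemma chi2_orth {l m : ℕ} (g : Fin l → Fin m → ZMod 2) :
    ∑ z : Fin l → Fin m → ZMod 2, chi2 z g = if g = 0 then (2 : ℝ) ^ (m * l) else 0 := by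
  classical
  have h1 : ∑ z : Fin l → Fin m → ZMod 2, chi2 z g =
      ∏ i, ∑ y : Fin m → ZMod 2, chi y (g i) := by
    rw [Finset.prod_univ_sum, Fintype.piFinset_univ]
    rfl
  rw [h1, Finset.prod_congr rfl fun i _ => chi_orth (g i)]
  by_cases hg : g = 0
  · rw [if_pos hg, hg]
    simp [← pow_mul]
  · rw [if_neg hg]
    obtain ⟨i, hi⟩ : ∃ i, g i ≠ 0 := by
      by_contra hcon
      push Not at hcon
      exact hg (funext hcon)
    exact Finset.prod_eq_zero (Finset.mem_univ i) (by rw [if_neg hi])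

lemma inversion {l m : ℕ} (f : (Fin l → Fin m → ZMod 2) → ℝ) (g : Fin l → Fin m → ZMod 2) :
    (2 : ℝ) ^ (m * l) * f g = ∑ z, chi2 z g * ∑ x, chi2 z x * f x := by
  classical
  simp_rw [Finset.mul_sum]
  rw [Finset.sum_comm]
  have h1 : ∀ x, ∑ z : Fin l → Fin m → ZMod 2, chi2 z g * (chi2 z x * f x) =
      (if g + x = 0 then (2 : ℝ) ^ (m * l) else 0) * f x := by
    intro x
    rw [← chi2_orth, Finset.sum_mul]
    refine Finset.sum_congr rfl fun z _ => ?_
    have : chi2 z (g + x) = chi2 z g * chi2 z x := (chi2Char z).map_add_eq_mul g x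
    rw [this]
    ring
  rw [Finset.sum_congr rfl fun x _ => h1 x, Finset.sum_eq_single g]
  · rw [if_pos]
    ext i k
    simp only [Pi.add_apply, Pi.zero_apply]
    generalize g i k = a
    revert a
    decide
  · intro x _ hx
    rw [if_neg, zero_mul]
    intro h
    apply hx
    ext i k
    have := congrFun (congrFun h i) k
    simp only [Pi.add_apply, Pi.zero_apply] at this
    revert this
    generalize g i k = a
    generalize x i k = b
    revert a b
    decide
  · intro h
    exact absurd (Finset.mem_univ g) h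

/-- the image of a tuple under the check matrix -/
def app {l n m : ℕ} (c : Fin n → Fin m → ZMod 2) (x : Fin l → Fin n → ZMod 2) :
    Fin l → Fin m → ZMod 2 := fun i => comb (x i) c

lemma app_add {l n m : ℕ} (c : Fin n → Fin m → ZMod 2) (x y : Fin l → Fin n → ZMod 2) :
    app c (x + y) = app c x + app c y := by
  funext i
  exact comb_add_left _ _ _

lemma sum_char_nonneg {l n : ℕ} (ψ : AddChar (Fin l → Fin n → ZMod 2) ℝ) : 0 ≤ ∑ x, ψ x := by
  classical
  rw [AddChar.sum_eq_ite]
  split_ifs
  · positivity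
  · exact le_rfl

/-- the pulled back pseudo-code -/
noncomputable def pulled {n m : ℕ} (l d : ℕ) (c : Fin n → Fin m → ZMod 2) (s p : ℝ)
    (x : Fin l → Fin n → ZMod 2) : ℝ := alpha l (img d c) s p (app c x)

lemma pulled_fourier {n m l d : ℕ} (c : Fin n → Fin m → ZMod 2) {s p : ℝ}
    (h : ∀ ψ : AddChar (Fin l → Fin m → ZMod 2) ℝ,
      0 ≤ ∑ x, ψ x * alpha l (img d c) s p x) (y : Fin l → Fin n → ZMod 2) :
    0 ≤ ∑ x, chi2 y x * pulled l d c s p x := by
  have h1 : (2 : ℝ) ^ (m * l) * ∑ x, chi2 y x * pulled l d c s p x =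
      ∑ z : Fin l → Fin m → ZMod 2, (∑ g, chi2 z g * alpha l (img d c) s p g) *
        ∑ x : Fin l → Fin n → ZMod 2, chi2 y x * chi2 z (app c x) := by
    rw [Finset.mul_sum]
    have h2 : ∀ x, (2 : ℝ) ^ (m * l) * (chi2 y x * pulled l d c s p x) =
        ∑ z : Fin l → Fin m → ZMod 2, chi2 y x * (chi2 z (app c x) *
          ∑ g, chi2 z g * alpha l (img d c) s p g) := by
      intro x
      rw [← Finset.mul_sum, ← inversion, pulled]
      ring
    rw [Finset.sum_congr rfl fun x _ => h2 x, Finset.sum_comm]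
    refine Finset.sum_congr rfl fun z _ => ?_
    rw [Finset.mul_sum]
    refine Finset.sum_congr rfl fun x _ => ?_
    ring
  have h3 : 0 ≤ (2 : ℝ) ^ (m * l) * ∑ x, chi2 y x * pulled l d c s p x := by
    rw [h1]
    refine Finset.sum_nonneg fun z _ => mul_nonneg (h (chi2Char z)) ?_
    exact sum_char_nonneg
      { toFun := fun x => chi2 y x * chi2 z (app c x)
        map_zero_eq_one' := by
          have e1 : app c (0 : Fin l → Fin n → ZMod 2) = 0 := by
            funext i
            exact comb_zero_left _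
          have e2 : chi2 y 0 = 1 := (chi2Char y).map_zero_eq_one
          have e3 : chi2 z 0 = 1 := (chi2Char z).map_zero_eq_one
          rw [e1, e2, e3, one_mul]
        map_add_eq_mul' := by
          intro a b
          have e2 : chi2 y (a + b) = chi2 y a * chi2 y b := (chi2Char y).map_add_eq_mul a b
          have e3 : ∀ u v, chi2 z (u + v) = chi2 z u * chi2 z v :=
            fun u v => (chi2Char z).map_add_eq_mul u v
          rw [app_add, e2, e3]
          ring }
  have h4 : (0 : ℝ) < 2 ^ (m * l) := by positivity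
  exact nonneg_of_mul_nonneg_right h3 h4

lemma pulled_sum {n m l d : ℕ} (c : Fin n → Fin m → ZMod 2) {s p : ℝ}
    (h : ∀ ψ : AddChar (Fin l → Fin m → ZMod 2) ℝ,
      0 ≤ ∑ x, ψ x * alpha l (img d c) s p x) :
    (2 : ℝ) ^ (n * l) * ∑ g, alpha l (img d c) s p g ≤
      2 ^ (m * l) * ∑ x, pulled l d c s p x := by
  classical
  have h1 : (2 : ℝ) ^ (m * l) * ∑ x, pulled l d c s p x =
      ∑ z : Fin l → Fin m → ZMod 2, (∑ g, chi2 z g * alpha l (img d c) s p g) *
        ∑ x : Fin l → Fin n → ZMod 2, chi2 z (app c x) := by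
    rw [Finset.mul_sum]
    have h2 : ∀ x, (2 : ℝ) ^ (m * l) * pulled l d c s p x =
        ∑ z : Fin l → Fin m → ZMod 2, (chi2 z (app c x) *
          ∑ g, chi2 z g * alpha l (img d c) s p g) := by
      intro x
      rw [← inversion, pulled]
    rw [Finset.sum_congr rfl fun x _ => h2 x, Finset.sum_comm]
    refine Finset.sum_congr rfl fun z _ => ?_
    rw [Finset.mul_sum]
    refine Finset.sum_congr rfl fun x _ => ?_
    ring
  rw [h1]
  have h5 : ∀ z : Fin l → Fin m → ZMod 2, 0 ≤ ∑ x : Fin l → Fin n → ZMod 2, chi2 z (app c x) := by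
    intro z
    exact sum_char_nonneg
      { toFun := fun x => chi2 z (app c x)
        map_zero_eq_one' := by
          have e1 : app c (0 : Fin l → Fin n → ZMod 2) = 0 := by
            funext i
            exact comb_zero_left _
          have e3 : chi2 z 0 = 1 := (chi2Char z).map_zero_eq_one
          rw [e1, e3]
        map_add_eq_mul' := by
          intro a b
          have e3 : ∀ u v, chi2 z (u + v) = chi2 z u * chi2 z v :=
            fun u v => (chi2Char z).map_add_eq_mul u v
          rw [app_add, e3] }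
  have h6 := Finset.single_le_sum (f := fun z : Fin l → Fin m → ZMod 2 =>
    (∑ g, chi2 z g * alpha l (img d c) s p g) *
        ∑ x : Fin l → Fin n → ZMod 2, chi2 z (app c x))
    (fun z _ => mul_nonneg (h (chi2Char z)) (h5 z)) (Finset.mem_univ 0)
  refine le_trans (le_of_eq ?_) h6
  have e4 : ∀ g : Fin l → Fin m → ZMod 2, chi2 0 g = 1 := by
    intro g
    rw [chi2_comm]
    exact (chi2Char g).map_zero_eq_one
  simp only [e4, one_mul, Finset.sum_const, Finset.card_univ, nsmul_eq_mul, mul_one]
  rw [mul_comm]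
  congr 1
  simp [← pow_mul]

end Pool.Agent.Q313.CJ
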