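import Pool.Agent.Q313.CJ.Char

/-! Character sums over Hamming balls. -/

open Finset Polynomial

namespace Pool.Agent.Q313.CJ

set_option linter.unusedSectionVars false

/-- `q` dominates `p` coefficientwise -/
def Dom (p q : ℝ[X]) : Prop := ∀ j, |p.coeff j| ≤ q.coeff j

lemma Dom.mul {p q p' q' : ℝ[X]} (h : Dom p q) (h' : Dom p' q') : Dom (p * p') (q * q') := by
  intro j
  rw [coeff_mul, coeff_mul]
  refine (Finset.abs_sum_le_sum_abs _ _).trans (Finset.sum_le_sum fun x _ => ?_)
  rw [abs_mul]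
  exact mul_le_mul (h _) (h' _) (abs_nonneg _) ((abs_nonneg _).trans (h _))

lemma Dom.one : Dom 1 1 := by
  intro j
  rw [coeff_one]
  split_ifs <;> simp

lemma Dom.pow {p q : ℝ[X]} (h : Dom p q) (k : ℕ) : Dom (p ^ k) (q ^ k) := by
  induction k with
  | zero => rw [pow_zero, pow_zero]; exact Dom.one
  | succ k ih => rw [pow_succ, pow_succ]; exact ih.mul h

lemma dom_plus : Dom (1 + X) (1 + X) := by
  intro j
  rw [coeff_add, coeff_one, coeff_X]
  rcases j with _ | _ | j <;> simp

lemma dom_minus : Dom (1 - X) (1 + X) := by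
  intro j
  rw [coeff_sub, coeff_add, coeff_one, coeff_X]
  rcases j with _ | _ | j <;> simp

lemma dom_sq : Dom (1 - X ^ 2) (1 + X ^ 2) := by
  intro j
  rw [coeff_sub, coeff_add, coeff_one, coeff_X_pow]
  rcases j with _ | _ | _ | j <;> simp

/-- the sum over the ball of a dominated polynomial -/
lemma dom_sum {p q : ℝ[X]} (h : Dom p q) {r : ℝ} (hr0 : 0 < r) (hr1 : r ≤ 1) (d : ℕ) :
    ∑ j ∈ Finset.range (d + 1), |p.coeff j| ≤ q.eval r / r ^ d := by
  have hq : ∀ j, 0 ≤ q.coeff j := fun j => (abs_nonneg _).trans (h j)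
  rw [le_div_iff₀ (by positivity), Finset.sum_mul]
  have h1 : ∑ j ∈ Finset.range (d + 1), |p.coeff j| * r ^ d ≤
      ∑ j ∈ Finset.range (d + 1), q.coeff j * r ^ j := by
    refine Finset.sum_le_sum fun j hj => ?_
    have hjd : j ≤ d := by
      rw [Finset.mem_range] at hj
      omega
    exact mul_le_mul (h j) (pow_le_pow_of_le_one hr0.le hr1 hjd) (by positivity) (hq j)
  refine h1.trans ?_
  rw [eval_eq_sum_range' (n := max (q.natDegree + 1) (d + 1)) (by
    exact lt_of_lt_of_le (Nat.lt_succ_self _) (le_max_left _ _))]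
  apply Finset.sum_le_sum_of_subset_of_nonneg
  · intro j hj
    rw [Finset.mem_range] at hj ⊢
    exact lt_of_lt_of_le hj (le_max_right _ _)
  · intro j _ _
    exact mul_nonneg (hq j) (by positivity)

variable {n : ℕ}

lemma zmod2_cases (a : ZMod 2) : a = 0 ∨ a = 1 := by
  revert a
  decide

/-- the generating polynomial of the character sums over spheres -/
lemma gen_poly (u : Fin n → ZMod 2) :
    ∑ e : Fin n → ZMod 2, C (chi u e) * X ^ hammingNorm e =
      ((1 - X) ^ hammingNorm u * (1 + X) ^ (n - hammingNorm u) : ℝ[X]) := by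
  classical
  have h1 : ∀ e : Fin n → ZMod 2, C (chi u e) * X ^ hammingNorm e =
      ∏ k, (C (sgn (u k * e k)) * (if e k = 0 then 1 else X) : ℝ[X]) := by
    intro e
    rw [Finset.prod_mul_distrib]
    congr 1
    · have hs : ∀ s : Finset (Fin n), sgn (∑ k ∈ s, u k * e k) = ∏ k ∈ s, sgn (u k * e k) := by
        intro s
        induction s using Finset.induction_on with
        | empty => simp [sgn]
        | insert a s ha ih => rw [Finset.sum_insert ha, Finset.prod_insert ha, sgn_add, ih]
      unfold chi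
      rw [hs, map_prod]
    · rw [Finset.prod_ite, Finset.prod_const_one, one_mul, Finset.prod_const]
      rfl
  rw [Finset.sum_congr rfl fun e _ => h1 e]
  have h2 : (∏ k : Fin n, ∑ a : ZMod 2, (C (sgn (u k * a)) * (if a = 0 then 1 else X) : ℝ[X])) =
      ∑ e : Fin n → ZMod 2, ∏ k, (C (sgn (u k * e k)) * (if e k = 0 then 1 else X) : ℝ[X]) := by
    rw [Finset.prod_univ_sum, Fintype.piFinset_univ]
  rw [← h2]
  have h3 : ∀ k : Fin n, ∑ a : ZMod 2, (C (sgn (u k * a)) * (if a = 0 then 1 else X) : ℝ[X]) =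
      if u k ≠ 0 then 1 - X else 1 + X := by
    intro k
    have : (univ : Finset (ZMod 2)) = {0, 1} := by decide
    rw [this, Finset.sum_pair (by decide)]
    rcases zmod2_cases (u k) with h | h
    · rw [h]
      simp [sgn]
    · rw [h]
      simp [sgn]
      ring
  rw [Finset.prod_congr rfl fun k _ => h3 k, Finset.prod_ite, Finset.prod_const, Finset.prod_const]
  congr 2
  have h4 := Finset.card_filter_add_card_filter_not (s := (univ : Finset (Fin n)))
    (fun k => u k ≠ 0)
  rw [Finset.card_univ, Fintype.card_fin] at h4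
  have h5 : (univ.filter (fun k => u k ≠ 0)).card = hammingNorm u := rfl
  omega

/-- **Character sums over balls.** -/
lemma ball_sum_le {t d : ℕ} (u : Fin n → ZMod 2) (h1 : t ≤ hammingNorm u)
    (h2 : hammingNorm u + t ≤ n) {r : ℝ} (hr0 : 0 < r) (hr1 : r ≤ 1) :
    |∑ e ∈ univ.filter (fun e : Fin n → ZMod 2 => hammingNorm e ≤ d), chi u e| ≤
      (1 + r ^ 2) ^ t * (1 + r) ^ (n - 2 * t) / r ^ d := by
  classical
  set w := hammingNorm u with hw
  set P : ℝ[X] := (1 - X) ^ w * (1 + X) ^ (n - w) with hP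
  have hPQ : Dom P ((1 + X ^ 2) ^ t * (1 + X) ^ (n - 2 * t)) := by
    have e : P = (1 - X ^ 2) ^ t * ((1 - X) ^ (w - t) * (1 + X) ^ (n - w - t)) := by
      rw [hP]
      have e1 : w = t + (w - t) := by omega
      have e2 : n - w = t + (n - w - t) := by omega
      conv_lhs => rw [e1, pow_add, show n - (t + (w - t)) = t + (n - w - t) by omega, pow_add]
      have e3 : (1 - X ^ 2 : ℝ[X]) = (1 - X) * (1 + X) := by ring
      rw [e3, mul_pow]
      ring
    have e4 : ((1 + X) ^ (n - 2 * t) : ℝ[X]) = (1 + X) ^ (w - t) * (1 + X) ^ (n - w - t) := by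
      rw [← pow_add]
      congr 1
      omega
    rw [e, e4]
    exact (dom_sq.pow t).mul ((dom_minus.pow _).mul (dom_plus.pow _))
  have hc : ∀ j, P.coeff j = ∑ e ∈ univ.filter (fun e : Fin n → ZMod 2 => hammingNorm e = j),
      chi u e := by
    intro j
    rw [hP, ← gen_poly, finsetSum_coeff, Finset.sum_filter]
    refine Finset.sum_congr rfl fun e _ => ?_
    rw [coeff_C_mul, coeff_X_pow]
    by_cases h : hammingNorm e = j
    · rw [if_pos h, if_pos h.symm, mul_one]
    · rw [if_neg h, if_neg (Ne.symm h), mul_zero]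
  have hsum : ∑ e ∈ univ.filter (fun e : Fin n → ZMod 2 => hammingNorm e ≤ d), chi u e =
      ∑ j ∈ Finset.range (d + 1), P.coeff j := by
    rw [Finset.sum_congr rfl fun j _ => hc j]
    rw [← Finset.sum_fiberwise_of_maps_to (g := fun e : Fin n → ZMod 2 => hammingNorm e)
      (t := Finset.range (d + 1))]
    · refine Finset.sum_congr rfl fun j hj => ?_
      congr 1
      ext e
      rw [Finset.mem_filter, Finset.mem_filter, Finset.mem_filter]
      rw [Finset.mem_range] at hj
      constructor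
      · rintro ⟨⟨-, -⟩, h⟩
        exact ⟨Finset.mem_univ _, h⟩
      · rintro ⟨-, h⟩
        exact ⟨⟨Finset.mem_univ _, by omega⟩, h⟩
    · intro e he
      rw [Finset.mem_filter] at he
      rw [Finset.mem_range]
      omega
  rw [hsum]
  refine (Finset.abs_sum_le_sum_abs _ _).trans ((dom_sum hPQ hr0 hr1 d).trans (le_of_eq ?_))
  simp

/-- the volume of a ball -/
lemma ball_card_le (d : ℕ) {r : ℝ} (hr0 : 0 < r) (hr1 : r ≤ 1) :
    ((univ.filter (fun e : Fin n → ZMod 2 => hammingNorm e ≤ d)).card : ℝ) ≤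
      (1 + r) ^ n / r ^ d := by
  have h := ball_sum_le (t := 0) (d := d) (0 : Fin n → ZMod 2) (Nat.zero_le _) (by simp) hr0 hr1
  rw [Finset.sum_congr rfl fun e _ => chi_zero_left e] at h
  simpa using h

end Pool.Agent.Q313.CJ
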